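import Pool.Agent.Work.MP_374aea_al.D1

set_option autoImplicit false

namespace Pool.Agent.MP_374aea_al

/-- The four basic lamp functions. -/
def FF : Fin 4 → List Pt → D3 := ![Fa, Fb .start, Fb .run, Fb .fail]

/-- Indices of bounded translations. -/
abbrev Ix (r : ℕ) := Fin 4 × (Fin (2 * r + 1) × Fin (2 * r + 1))

/-- The generating family of `KK r`. -/
def fam (r : ℕ) (a : Ix r) : List Pt → D3 :=
  fun l => FF a.1 (addP (((a.2.1 : ℕ) : ℤ) - r) (((a.2.2 : ℕ) : ℤ) - r) l)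

/-- The group generated by the basic lamp functions translated by at most `r`. -/
def KK (r : ℕ) : Subgroup (List Pt → D3) := Subgroup.closure (Set.range (fam r))

theorem fam_mem (r : ℕ) (c : Fin 4) (x y : ℤ) (hx : |x| ≤ r) (hy : |y| ≤ r) :
    (fun l => FF c (addP x y l)) ∈ KK r := by
  apply Subgroup.subset_closure
  have h1 := abs_le.mp hx
  have h2 := abs_le.mp hy
  refine ⟨(c, (⟨(x + r).toNat, by omega⟩, ⟨(y + r).toNat, by omega⟩)), ?_⟩
  funext l
  unfold fam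
  simp only
  have e1 : (((x + r).toNat : ℕ) : ℤ) - r = x := by omega
  have e2 : (((y + r).toNat : ℕ) : ℤ) - r = y := by omega
  rw [e1, e2]

theorem fam_bound (r : ℕ) (a : Ix r) :
    |((a.2.1 : ℕ) : ℤ) - r| ≤ r ∧ |((a.2.2 : ℕ) : ℤ) - r| ≤ r := by
  have h1 := a.2.1.2
  have h2 := a.2.2.2
  constructor
  · rw [abs_le]; omega
  · rw [abs_le]; omega

theorem KK_finite (r : ℕ) : (KK r : Set (List Pt → D3)).Finite := by
  classical
  let Ψ : ((Ix r → D3) → D3) → (List Pt → D3) := fun φ l => φ (fun a => fam r a l)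
  apply Set.Finite.subset (Set.finite_range Ψ)
  intro F hF
  refine Subgroup.closure_induction (p := fun F _ => F ∈ Set.range Ψ) ?_ ?_ ?_ ?_ hF
  · rintro _ ⟨a, rfl⟩
    exact ⟨fun v => v a, rfl⟩
  · exact ⟨fun _ => 1, rfl⟩
  · rintro _ _ _ _ ⟨φ, rfl⟩ ⟨ψ, rfl⟩
    exact ⟨fun v => φ v * ψ v, rfl⟩
  · rintro _ _ ⟨φ, rfl⟩
    exact ⟨fun v => (φ v)⁻¹, rfl⟩

/-- Induction over `KK r`. -/
theorem KK_map (r r' : ℕ) (g : List Pt → List Pt)
    (h : ∀ a : Ix r, (fun l => fam r a (g l)) ∈ KK r') (F : List Pt → D3) (hF : F ∈ KK r) :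
    (fun l => F (g l)) ∈ KK r' := by
  refine Subgroup.closure_induction (p := fun F _ => (fun l => F (g l)) ∈ KK r') ?_ ?_ ?_ ?_ hF
  · rintro _ ⟨a, rfl⟩
    exact h a
  · exact one_mem _
  · intro F G _ _ hF hG
    exact mul_mem hF hG
  · intro F _ hF
    exact inv_mem hF

theorem KK_mono {r r' : ℕ} (h : r ≤ r') {F : List Pt → D3} (hF : F ∈ KK r) : F ∈ KK r' := by
  have := KK_map r r' (fun l => l) (by
    intro a
    obtain ⟨h1, h2⟩ := fam_bound r a
    exact fam_mem r' a.1 _ _ (by omega) (by omega)) F hF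
  exact this

theorem KK_add {r : ℕ} {F : List Pt → D3} (hF : F ∈ KK r) (r' : ℕ) (x y : ℤ) (hx : |x| ≤ r')
    (hy : |y| ≤ r') : (fun l => F (addP x y l)) ∈ KK (r + r') := by
  apply KK_map r (r + r') (fun l => addP x y l) _ F hF
  intro a
  obtain ⟨h1, h2⟩ := fam_bound r a
  have h3 : (fun l => fam r a (addP x y l)) =
      fun l => FF a.1 (addP (((a.2.1 : ℕ) : ℤ) - r + x) (((a.2.2 : ℕ) : ℤ) - r + y) l) := by
    funext l
    rw [addP_add]
    rfl
  rw [h3]
  apply fam_mem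
  · calc _ ≤ |((a.2.1 : ℕ) : ℤ) - r| + |x| := abs_add_le _ _
      _ ≤ _ := by push_cast; omega
  · calc _ ≤ |((a.2.2 : ℕ) : ℤ) - r| + |y| := abs_add_le _ _
      _ ≤ _ := by push_cast; omega

theorem FF_cons (c : Fin 4) (p : Pt) :
    (∃ c', ∀ l, FF c (p :: l) = FF c' l) ∨ ∀ l, FF c (p :: l) = 1 := by
  have hb : ∀ q : St, (∃ c', ∀ l, Fb q (p :: l) = FF c' l) ∨ ∀ l, Fb q (p :: l) = 1 := by
    intro q
    by_cases h : p.1 = p.2
    · left
      cases hq : step q p.2 with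
      | start => exact ⟨1, fun l => by rw [Fb_cons, if_pos h, hq]; rfl⟩
      | run => exact ⟨2, fun l => by rw [Fb_cons, if_pos h, hq]; rfl⟩
      | fail => exact ⟨3, fun l => by rw [Fb_cons, if_pos h, hq]; rfl⟩
    · right
      intro l
      rw [Fb_cons, if_neg h]
  fin_cases c
  · by_cases h : p.1 = (0, 0)
    · left
      exact ⟨0, fun l => by
        change Fa (p :: l) = Fa l
        rw [Fa_cons, if_pos h]⟩
    · right
      intro l
      change Fa (p :: l) = 1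
      rw [Fa_cons, if_neg h]
  · exact hb .start
  · exact hb .run
  · exact hb .fail

/-- The contraction of levels. -/
def dn (r : ℕ) : ℕ := max 1 (r - 1)

theorem c1_dn (r : ℕ) (hr : 1 ≤ r) (x : ℤ) (hx : |x| ≤ r) (p : Pt) : |c1 x p| ≤ dn r := by
  have h1 := abs_le.mp hx
  have h2 := p.1.1.2
  unfold c1 dn
  rw [abs_le]
  constructor <;> omega

theorem c2_dn (r : ℕ) (hr : 1 ≤ r) (x : ℤ) (hx : |x| ≤ r) (p : Pt) : |c2 x p| ≤ dn r := by
  have h1 := abs_le.mp hx
  have h2 := p.1.2.2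
  unfold c2 dn
  rw [abs_le]
  constructor <;> omega

theorem KK_cons {r : ℕ} (hr : 1 ≤ r) {F : List Pt → D3} (hF : F ∈ KK r) (p : Pt) :
    (fun l => F (p :: l)) ∈ KK (dn r) := by
  apply KK_map r (dn r) (fun l => p :: l) _ F hF
  intro a
  obtain ⟨h1, h2⟩ := fam_bound r a
  set x : ℤ := ((a.2.1 : ℕ) : ℤ) - r with hx
  set y : ℤ := ((a.2.2 : ℕ) : ℤ) - r with hy
  have h3 : (fun l => fam r a (p :: l)) =
      fun l => FF a.1 (addL x y p :: addP (c1 x p) (c2 y p) l) := by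
    funext l
    rfl
  rw [h3]
  rcases FF_cons a.1 (addL x y p) with ⟨c', hc'⟩ | h
  · have h4 : (fun l => FF a.1 (addL x y p :: addP (c1 x p) (c2 y p) l)) =
        fun l => FF c' (addP (c1 x p) (c2 y p) l) := by
      funext l
      rw [hc']
    rw [h4]
    exact fam_mem _ _ _ _ (c1_dn r hr x h1 p) (c2_dn r hr y h2 p)
  · have h4 : (fun l => FF a.1 (addL x y p :: addP (c1 x p) (c2 y p) l)) = 1 := by
      funext l
      rw [h]
      rfl
    rw [h4]
    exact one_mem _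

/-- Elements of level `r`. -/
def Lev (r : ℕ) : Set EE := {e | e.F ∈ KK r ∧ |e.i| ≤ r ∧ |e.j| ≤ r}

theorem Lev_one (r : ℕ) : (1 : EE) ∈ Lev r :=
  ⟨one_mem _, by rw [EE.one_i]; simp, by rw [EE.one_j]; simp⟩

theorem Lev_mono {r r' : ℕ} (h : r ≤ r') {e : EE} (he : e ∈ Lev r) : e ∈ Lev r' :=
  ⟨KK_mono h he.1, le_trans he.2.1 (by exact_mod_cast h), le_trans he.2.2 (by exact_mod_cast h)⟩

theorem Lev_mul {r r' : ℕ} {e e' : EE} (he : e ∈ Lev r) (he' : e' ∈ Lev r') :
    e * e' ∈ Lev (r + r') := by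
  refine ⟨?_, ?_, ?_⟩
  · have h1 := KK_add he.1 r' e'.i e'.j he'.2.1 he'.2.2
    have h2 : e'.F ∈ KK (r + r') := KK_mono (by omega) he'.1
    exact mul_mem h1 h2
  · rw [EE.mul_i]
    calc _ ≤ |e.i| + |e'.i| := abs_add_le _ _
      _ ≤ _ := by push_cast; exact add_le_add he.2.1 he'.2.1
  · rw [EE.mul_j]
    calc _ ≤ |e.j| + |e'.j| := abs_add_le _ _
      _ ≤ _ := by push_cast; exact add_le_add he.2.2 he'.2.2

theorem Lev_inv {r : ℕ} {e : EE} (he : e ∈ Lev r) : e⁻¹ ∈ Lev (r + r) := by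
  refine ⟨?_, ?_, ?_⟩
  · have h1 := KK_add he.1 r (-e.i) (-e.j) (by rw [abs_neg]; exact he.2.1)
      (by rw [abs_neg]; exact he.2.2)
    exact inv_mem h1
  · rw [EE.inv_i, abs_neg]
    exact le_trans he.2.1 (by push_cast; omega)
  · rw [EE.inv_j, abs_neg]
    exact le_trans he.2.2 (by push_cast; omega)

theorem Lev_shift {r : ℕ} (hr : 1 ≤ r) {e : EE} (he : e ∈ Lev r) (p : Pt) :
    e.shift p ∈ Lev (dn r) :=
  ⟨KK_cons hr he.1 p, c1_dn r hr _ he.2.1 p, c2_dn r hr _ he.2.2 p⟩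

theorem FF_mem (c : Fin 4) : FF c ∈ KK 1 := by
  have := fam_mem 1 c 0 0 (by simp) (by simp)
  simp only [addP_zero] at this
  exact this

theorem lamp_Lev (c : Fin 4) : EE.lamp (FF c) ∈ Lev 1 :=
  ⟨FF_mem c, by change |(0 : ℤ)| ≤ _; simp, by change |(0 : ℤ)| ≤ _; simp⟩

theorem tr_Lev (i j : ℤ) (hi : |i| ≤ 1) (hj : |j| ≤ 1) : EE.tr i j ∈ Lev 1 :=
  ⟨one_mem _, by change |i| ≤ _; simpa using hi, by change |j| ≤ _; simpa using hj⟩

theorem gen6_Lev (c : Fin 6) : gen6 c ∈ Lev 1 := by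
  fin_cases c
  · exact tr_Lev 1 0 (by simp) (by simp)
  · exact tr_Lev 0 1 (by simp) (by simp)
  · exact lamp_Lev 0
  · exact lamp_Lev 1
  · exact lamp_Lev 2
  · exact lamp_Lev 3

theorem gen3_Lev (c : Fin 3) : gen3 c ∈ Lev 1 := by
  fin_cases c
  · exact tr_Lev 1 1 (by simp) (by simp)
  · exact lamp_Lev 0
  · exact lamp_Lev 1

theorem Lev_finite (r : ℕ) : (Lev r).Finite := by
  have h1 : ((KK r : Set (List Pt → D3)) ×ˢ (Set.Icc (-(r : ℤ)) r ×ˢ Set.Icc (-(r : ℤ)) r)).Finite :=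
    (KK_finite r).prod ((Set.finite_Icc _ _).prod (Set.finite_Icc _ _))
  apply Set.Finite.subset (h1.image (fun a => (⟨a.1, a.2.1, a.2.2⟩ : EE)))
  intro e he
  exact ⟨(e.F, (e.i, e.j)), ⟨he.1, abs_le.mp he.2.1, abs_le.mp he.2.2⟩, rfl⟩

/-! ### Sections of elements of the group -/

/-- Sections at letters are bounded elements of the group. -/
def Good (g : Equiv.Perm (List Xt)) : Prop :=
  ∀ x : Xt, ∃ y : Xt, ∃ e : EE, Act e ∈ GG ∧ (∃ r, e ∈ Lev r) ∧ ∀ w, g (x :: w) = y :: Act e w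

theorem Good_mul {g h : Equiv.Perm (List Xt)} (hg : Good g) (hh : Good h) : Good (g * h) := by
  intro x
  obtain ⟨y, e, he, ⟨r, hr⟩, hx⟩ := hh x
  obtain ⟨z, e', he', ⟨r', hr'⟩, hy⟩ := hg y
  refine ⟨z, e' * e, ?_, ⟨r' + r, Lev_mul hr' hr⟩, ?_⟩
  · rw [map_mul]; exact mul_mem he' he
  · intro w
    rw [Equiv.Perm.mul_apply, hx, hy, map_mul, Equiv.Perm.mul_apply]

theorem Good_one : Good 1 := by
  intro x
  refine ⟨x, 1, ?_, ⟨1, Lev_one 1⟩, ?_⟩
  · rw [map_one]; exact one_mem _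
  · intro w
    rw [map_one]
    rfl

theorem Good_Act (e : EE) (r : ℕ) (hr : 1 ≤ r) (he : e ∈ Lev r)
    (hs : ∀ p, Act (e.shift p) ∈ GG) : Good (Act e) := by
  intro x
  match x with
  | none =>
    refine ⟨none, 1, ?_, ⟨1, Lev_one 1⟩, ?_⟩
    · rw [map_one]; exact one_mem _
    · intro w
      rw [map_one]
      exact actE_none e w
  | some (p, z) =>
    exact ⟨_, e.shift p, hs p, ⟨_, Lev_shift hr he p⟩, fun w => actE_some _ p z w⟩

theorem Good_hat (e : EE) (r : ℕ) (he : e ∈ Lev r) (hs : Act e ∈ GG) : Good (hat (Act e)) := by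
  intro x
  match x with
  | none => exact ⟨none, e, hs, ⟨r, he⟩, fun w => hat_none _ w⟩
  | some x =>
    refine ⟨some x, 1, ?_, ⟨1, Lev_one 1⟩, ?_⟩
    · rw [map_one]; exact one_mem _
    · intro w
      rw [map_one]
      exact hat_some _ x w

theorem shift_inv (e : EE) (p : Pt) :
    (e⁻¹).shift p = (e.shift (addL (e⁻¹).i (e⁻¹).j p))⁻¹ := by
  rw [eq_inv_iff_mul_eq_one, mul_eq_one_comm, ← EE.shift_mul, mul_inv_cancel, EE.shift_one]

theorem Good_gens (c : Fin 3 ⊕ Fin 6) : Good (gens c) ∧ Good (gens c)⁻¹ := by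
  cases c with
  | inl c =>
    constructor
    · exact Good_hat _ 1 (gen3_Lev c) (gen3_mem c)
    · have : (gens (.inl c))⁻¹ = hat (Act (gen3 c)⁻¹) := by
        rw [map_inv, map_inv]; rfl
      rw [this]
      refine Good_hat (gen3 c)⁻¹ (1 + 1) (Lev_inv (gen3_Lev c)) ?_
      rw [map_inv]
      exact inv_mem (gen3_mem c)
  | inr c =>
    constructor
    · exact Good_Act _ 1 (le_refl _) (gen6_Lev c) (gen6_shift c)
    · have : (gens (.inr c))⁻¹ = Act (gen6 c)⁻¹ := by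
        rw [map_inv]; rfl
      rw [this]
      refine Good_Act (gen6 c)⁻¹ (1 + 1) (by norm_num) (Lev_inv (gen6_Lev c)) ?_
      intro p
      rw [shift_inv, map_inv]
      exact inv_mem (gen6_shift c _)

theorem GG_good (g : Equiv.Perm (List Xt)) (hg : g ∈ GG) : Good g := by
  have : Good g ∧ Good g⁻¹ := by
    refine Subgroup.closure_induction (p := fun g _ => Good g ∧ Good g⁻¹) ?_ ?_ ?_ ?_ hg
    · rintro _ ⟨c, rfl⟩
      exact Good_gens c
    · rw [inv_one]
      exact ⟨Good_one, Good_one⟩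
    · intro a b _ _ ha hb
      rw [mul_inv_rev]
      exact ⟨Good_mul ha.1 hb.1, Good_mul hb.2 ha.2⟩
    · intro a _ ha
      rw [inv_inv]
      exact ⟨ha.2, ha.1⟩
  exact this.1

/-- The nucleus. -/
def Nuc : Set (Equiv.Perm (List Xt)) := {g | g ∈ GG ∧ ∃ e ∈ Lev 1, g = Act e}

theorem Nuc_finite : Nuc.Finite := by
  apply Set.Finite.subset ((Lev_finite 1).image Act)
  rintro g ⟨_, e, he, rfl⟩
  exact ⟨e, he, rfl⟩

/-- Sections of elements `Act e` in the group. -/
theorem section_Act (v : List Xt) : ∀ (e : EE) (r : ℕ), e ∈ Lev (1 + r) → r ≤ v.length →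
    Act e ∈ GG → ∃ h ∈ Nuc, IsSection (Act e) v h := by
  induction v with
  | nil =>
    intro e r he hr hG
    have hr0 : r = 0 := by simpa using hr
    rw [hr0] at he
    refine ⟨Act e, ⟨hG, e, he, rfl⟩, ?_⟩
    intro w
    rw [List.nil_append, Act_apply e [], actE_nil, List.nil_append]
  | cons x v ih =>
    intro e r he hr hG
    match x with
    | none =>
      refine ⟨1, ⟨one_mem _, 1, Lev_one 1, (map_one _).symm⟩, ?_⟩
      intro w
      rw [Act_apply, Act_apply, List.cons_append, actE_none, actE_none]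
      rfl
    | some (p, z) =>
      have hs : Act (e.shift p) ∈ GG := by
        obtain ⟨y, e', he', _, hw⟩ := GG_good _ hG (some (p, z))
        have : Act (e.shift p) = Act e' := by
          ext1 w
          have h := hw w
          rw [Act_apply, actE_some] at h
          exact (List.cons.inj h).2
        rw [this]
        exact he'
      have h1 : e.shift p ∈ Lev (1 + (r - 1)) :=
        Lev_mono (by unfold dn; omega) (Lev_shift (by omega) he p)
      obtain ⟨h, hN, hh⟩ := ih (e.shift p) (r - 1) h1 (by rw [List.length_cons] at hr; omega) hs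
      refine ⟨h, hN, ?_⟩
      intro w
      rw [Act_apply, Act_apply, List.cons_append, actE_some, actE_some, List.cons_append]
      congr 1
      exact hh w

theorem exists_bound {α : Type} [Finite α] (r : α → ℕ) : ∃ b, ∀ x, r x ≤ b := by
  have := Fintype.ofFinite α
  exact ⟨∑ x, r x, fun x =>
    Finset.single_le_sum (f := r) (fun i _ => Nat.zero_le _) (Finset.mem_univ x)⟩

theorem GG_contracting : IsContracting GG := by
  classical
  refine ⟨Nuc, Nuc_finite, fun g hg => hg.1, ?_⟩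
  intro g hg
  have hgood : ∀ x : Xt, ∃ y : Xt, ∃ e : EE, ∃ r : ℕ, Act e ∈ GG ∧ e ∈ Lev r ∧
      ∀ w, g (x :: w) = y :: Act e w := by
    intro x
    obtain ⟨y, e, he, ⟨r, hr⟩, hw⟩ := GG_good g hg x
    exact ⟨y, e, r, he, hr, hw⟩
  choose y e r he hr hw using hgood
  obtain ⟨b, hb⟩ := exists_bound r
  refine ⟨1 + b, ?_⟩
  intro v hv
  match v with
  | [] => simp at hv
  | (x :: v) =>
    have h1 := hb x
    rw [List.length_cons] at hv
    obtain ⟨h, hN, hh⟩ := section_Act v (e x) (r x) (Lev_mono (by omega) (hr x)) (by omega) (he x)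
    refine ⟨h, hN, ?_⟩
    intro w
    rw [List.cons_append, hw, hw, List.cons_append]
    congr 1
    exact hh w

end Pool.Agent.MP_374aea_al
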