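import Pool.Agent.Work.MP_374aea_al.Defs

set_option autoImplicit false

namespace Pool.Agent.MP_374aea_al

namespace A1

/-- The test passes on all continuations. -/
def OK (q : St) (i j : ℤ) : Prop := ∀ l, AllZero l → Fb q (addP i j l) = 1

theorem eb_ne_one : D3.eb ≠ 1 := by decide

theorem Fb_nil (q : St) : Fb q [] = if q = .fail then D3.eb else 1 := by
  rw [Fb]

theorem Fb_cons (q : St) (p : Pt) (l : List Pt) :
    Fb q (p :: l) = if p.1 = p.2 then Fb (step q p.2) l else 1 := by
  rw [Fb]

theorem OK_iff (q : St) (i j : ℤ) :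
    OK q i j ↔ q ≠ .fail ∧ OK (step q (dg2 i, dg4 j)) (i / 2) (j / 4) := by
  constructor
  · intro h
    constructor
    · intro hq
      have h1 := h [] (by intro p hp; simp at hp)
      rw [addP_nil, Fb_nil, if_pos hq] at h1
      exact eb_ne_one h1
    · intro l hl
      have h1 := h (((0, 0), (dg2 i, dg4 j)) :: l) (by
        intro p hp
        rcases List.mem_cons.mp hp with rfl | hp
        · rfl
        · exact hl p hp)
      rw [addP_cons, Fb_cons] at h1
      have e1 : c1 i (((0, 0), (dg2 i, dg4 j)) : Pt) = i / 2 := by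
        unfold c1; simp
      have e2 : c2 j (((0, 0), (dg2 i, dg4 j)) : Pt) = j / 4 := by
        unfold c2; simp
      have e3 : addL i j (((0, 0), (dg2 i, dg4 j)) : Pt) = ((dg2 i, dg4 j), (dg2 i, dg4 j)) := by
        unfold addL; simp
      rw [e1, e2, e3] at h1
      simpa using h1
  · rintro ⟨h0, h⟩ l hl
    cases l with
    | nil => rw [addP_nil, Fb_nil, if_neg h0]
    | cons p l =>
      have hp : p.1 = (0, 0) := hl p (List.mem_cons_self)
      have e1 : c1 i p = i / 2 := by
        unfold c1; rw [hp]; simp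
      have e2 : c2 j p = j / 4 := by
        unfold c2; rw [hp]; simp
      have e3 : addL i j p = ((dg2 i, dg4 j), p.2) := by
        unfold addL; rw [hp]; simp
      rw [addP_cons, Fb_cons, e1, e2, e3]
      simp only
      split_ifs with h2
      · rw [← h2]
        exact h l (fun x hx => hl x (List.mem_cons_of_mem _ hx))
      · rfl

/-- The digit condition at level `e`. -/
def Cond (i j : ℤ) (e : ℕ) : Prop :=
  (j / 4 ^ e) % 4 = 0 ∨ ((j / 4 ^ e) % 4 = 1 ∧ (i / 2 ^ e) % 2 = 1)

theorem step_run_ne (i j : ℤ) (h : step .run (dg2 i, dg4 j) ≠ .fail) :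
    step .run (dg2 i, dg4 j) = .run ∧ Cond i j 0 := by
  unfold step at h ⊢
  simp only at h ⊢
  have h2 := dg2_val i
  have h4 := dg4_val j
  by_cases hc : dg4 j = 0 ∨ dg4 j = 1 ∧ dg2 i = 1
  · rw [if_pos hc]
    refine ⟨rfl, ?_⟩
    unfold Cond
    rcases hc with hc | ⟨hc, hc'⟩
    · left
      rw [hc] at h4
      simp at h4 ⊢
      omega
    · right
      rw [hc] at h4
      rw [hc'] at h2
      simp at h4 h2 ⊢
      omega
  · rw [if_neg hc] at h
    exact absurd rfl h

theorem step_run_of (i j : ℤ) (h : Cond i j 0) : step .run (dg2 i, dg4 j) = .run := by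
  unfold step
  simp only
  have h2 := dg2_val i
  have h4 := dg4_val j
  unfold Cond at h
  simp only [pow_zero, Int.ediv_one] at h
  rw [if_pos]
  rcases h with h | ⟨h, h'⟩
  · left
    apply Fin.ext
    simp
    omega
  · right
    constructor
    · apply Fin.ext
      simp
      omega
    · apply Fin.ext
      simp
      omega

theorem Cond_succ (i j : ℤ) (e : ℕ) : Cond (i / 2) (j / 4) e ↔ Cond i j (e + 1) := by
  unfold Cond
  have e1 : j / 4 / 4 ^ e = j / 4 ^ (e + 1) := by
    rw [pow_succ', Int.ediv_ediv_of_nonneg (by norm_num)]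
  have e2 : i / 2 / 2 ^ e = i / 2 ^ (e + 1) := by
    rw [pow_succ', Int.ediv_ediv_of_nonneg (by norm_num)]
  rw [e1, e2]

theorem cond_of_OK (e : ℕ) : ∀ i j : ℤ, OK .run i j → Cond i j e := by
  induction e with
  | zero =>
    intro i j h
    rw [OK_iff] at h
    have h2 := h.2
    rw [OK_iff] at h2
    exact (step_run_ne i j h2.1).2
  | succ e ih =>
    intro i j h
    rw [OK_iff] at h
    have h2 := h.2
    have h3 := h2
    rw [OK_iff] at h2
    rw [(step_run_ne i j h2.1).1] at h3
    exact (Cond_succ i j e).mp (ih _ _ h3)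

theorem OK_of_cond (l : List Pt) : ∀ i j : ℤ, (∀ e, Cond i j e) → AllZero l →
    Fb .run (addP i j l) = 1 := by
  induction l with
  | nil =>
    intro i j _ _
    rw [addP_nil, Fb_nil, if_neg (by decide)]
  | cons p l ih =>
    intro i j h hl
    have hp : p.1 = (0, 0) := hl p (List.mem_cons_self)
    have e1 : c1 i p = i / 2 := by
      unfold c1; rw [hp]; simp
    have e2 : c2 j p = j / 4 := by
      unfold c2; rw [hp]; simp
    have e3 : addL i j p = ((dg2 i, dg4 j), p.2) := by
      unfold addL; rw [hp]; simp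
    rw [addP_cons, Fb_cons, e1, e2, e3]
    simp only
    split_ifs with h2
    · rw [← h2, step_run_of i j (h 0)]
      exact ih _ _ (fun e => (Cond_succ i j e).mpr (h (e + 1)))
        (fun x hx => hl x (List.mem_cons_of_mem _ hx))
    · rfl

theorem OK_run_iff (i j : ℤ) : OK .run i j ↔ ∀ e, Cond i j e :=
  ⟨fun h e => cond_of_OK e i j h, fun h l hl => OK_of_cond l i j h hl⟩

theorem mem_RR_iff (n : ℤ) : n ∈ RR ↔ (n % 4 = 0 ∨ n % 4 = 2) ∧ ∀ e, Cond n n (e + 1) := by
  have h0 : n ∈ RR ↔ OK .start n n := Iff.rfl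
  rw [h0, OK_iff]
  have h4 := dg4_val n
  constructor
  · rintro ⟨_, h⟩
    have hs : step .start (dg2 n, dg4 n) ≠ .fail := ((OK_iff _ _ _).mp h).1
    unfold step at hs h
    simp only at hs h
    by_cases hc : dg4 n = 0 ∨ dg4 n = 2
    · rw [if_pos hc] at h
      refine ⟨?_, fun e => (Cond_succ n n e).mp ((OK_run_iff _ _).mp h e)⟩
      rcases hc with hc | hc
      · left; rw [hc] at h4; simp at h4; omega
      · right; rw [hc] at h4; simp at h4; omega
    · rw [if_neg hc] at hs
      exact absurd rfl hs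
  · rintro ⟨h1, h2⟩
    refine ⟨by decide, ?_⟩
    have hs : step .start (dg2 n, dg4 n) = .run := by
      unfold step
      simp only
      rw [if_pos]
      rcases h1 with h1 | h1
      · left; apply Fin.ext; simp; omega
      · right; apply Fin.ext; simp; omega
    rw [hs, OK_run_iff]
    exact fun e => (Cond_succ n n e).mpr (h2 e)

theorem kk_succ (N : ℕ) : kk (N + 1) = 2 ^ 2 ^ N + kk N := by
  unfold kk
  rw [Finset.sum_range_succ, add_comm]

theorem kk_lt (N : ℕ) : kk N < 2 ^ 2 ^ N := by
  induction N with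
  | zero => simp [kk]
  | succ N ih =>
    rw [kk_succ]
    have h1 : 2 ^ 2 ^ N + 2 ^ 2 ^ N ≤ 2 ^ 2 ^ (N + 1) := by
      rw [← two_mul, ← pow_succ']
      apply Nat.pow_le_pow_right (by norm_num)
      rw [pow_succ]
      have := Nat.one_le_two_pow (n := N)
      omega
    omega

theorem testBit_kk (N k : ℕ) : (kk N).testBit k = true ↔ ∃ i < N, k = 2 ^ i := by
  induction N with
  | zero => simp [kk]
  | succ N ih =>
    have hor : 2 ^ 2 ^ N + kk N = 2 ^ 2 ^ N ||| kk N := by
      have := Nat.two_pow_add_eq_or_of_lt (kk_lt N) 1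
      rwa [mul_one] at this
    rw [kk_succ, hor, Nat.testBit_or, Bool.or_eq_true,
      Nat.testBit_two_pow, decide_eq_true_iff, ih]
    constructor
    · rintro (h | ⟨i, hi, h⟩)
      · exact ⟨N, by omega, h.symm⟩
      · exact ⟨i, by omega, h⟩
    · rintro ⟨i, hi, h⟩
      rcases Nat.lt_succ_iff_lt_or_eq.mp hi with hi | rfl
      · exact Or.inr ⟨i, hi, h⟩
      · exact Or.inl h.symm

theorem testBit_iff (n k : ℕ) : n.testBit k = true ↔ n / 2 ^ k % 2 = 1 := by
  rw [Nat.testBit_eq_decide_div_mod_eq, decide_eq_true_iff]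

theorem div_four (n k : ℕ) : n / 4 ^ k = n / 2 ^ (2 * k) := by
  rw [pow_mul]; norm_num

theorem div_four_half (n k : ℕ) : n / 4 ^ k / 2 = n / 2 ^ (2 * k + 1) := by
  rw [div_four, Nat.div_div_eq_div_mul, ← pow_succ]

theorem cond_nat (n e : ℕ) : Cond (n : ℤ) (n : ℤ) e ↔
    (n.testBit (2 * e + 1) = false ∧ (n.testBit (2 * e) = true → n.testBit e = true)) := by
  unfold Cond
  have h1 : ((n : ℤ) / 4 ^ e) % 4 = ((n / 4 ^ e % 4 : ℕ) : ℤ) := by push_cast; rfl
  have h2 : ((n : ℤ) / 2 ^ e) % 2 = ((n / 2 ^ e % 2 : ℕ) : ℤ) := by push_cast; rfl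
  rw [h1, h2]
  have b1 := testBit_iff n (2 * e + 1)
  have b2 := testBit_iff n (2 * e)
  have b3 := testBit_iff n e
  rw [← div_four_half] at b1
  rw [← div_four] at b2
  rw [← Bool.not_eq_true, b1, b2, b3]
  generalize n / 4 ^ e = a
  generalize n / 2 ^ e = b
  omega

theorem exists_kk (n : ℕ) (h0 : n.testBit 0 = false)
    (h : ∀ e, n.testBit (2 * (e + 1) + 1) = false ∧
      (n.testBit (2 * (e + 1)) = true → n.testBit (e + 1) = true)) : ∃ N, n = kk N := by
  have hpow : ∀ k, n.testBit k = true → ∃ i, k = 2 ^ i := by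
    intro k
    induction k using Nat.strong_induction_on with
    | _ k ih =>
      intro hk
      rcases Nat.even_or_odd' k with ⟨e, he | he⟩
      · rcases Nat.eq_zero_or_pos e with h1 | h1
        · subst h1
          rw [he] at hk
          simp only [mul_zero] at hk
          rw [h0] at hk
          exact absurd hk (by decide)
        · obtain ⟨e', rfl⟩ : ∃ e', e = e' + 1 := ⟨e - 1, by omega⟩
          rw [he] at hk
          obtain ⟨i, hi⟩ := ih (e' + 1) (by omega) ((h e').2 hk)
          exact ⟨i + 1, by rw [he, hi, pow_succ]; ring⟩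
      · rcases Nat.eq_zero_or_pos e with h1 | h1
        · subst h1
          exact ⟨0, by simpa using he⟩
        · obtain ⟨e', rfl⟩ : ∃ e', e = e' + 1 := ⟨e - 1, by omega⟩
          rw [he, (h e').1] at hk
          exact absurd hk (by decide)
  have hdown : ∀ i, n.testBit (2 ^ (i + 1)) = true → n.testBit (2 ^ i) = true := by
    intro i hi
    obtain ⟨e, he⟩ : ∃ e, 2 ^ i = e + 1 := ⟨2 ^ i - 1, by
      have := Nat.one_le_two_pow (n := i)
      omega⟩
    have h2 : 2 ^ (i + 1) = 2 * (e + 1) := by rw [pow_succ, he]; ring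
    rw [h2] at hi
    rw [he]
    exact (h e).2 hi
  have hex : ∃ i, ¬ n.testBit (2 ^ i) = true := by
    refine ⟨n, ?_⟩
    rw [Bool.not_eq_true]
    apply Nat.testBit_lt_two_pow
    calc n < 2 ^ n := Nat.lt_two_pow_self
      _ < 2 ^ 2 ^ n := Nat.pow_lt_pow_right (by norm_num) Nat.lt_two_pow_self
  classical
  refine ⟨Nat.find hex, ?_⟩
  have hlt : ∀ i < Nat.find hex, n.testBit (2 ^ i) = true := by
    intro i hi
    have := Nat.find_min hex hi
    simpa using this
  have hge : ∀ d, ¬ n.testBit (2 ^ (Nat.find hex + d)) = true := by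
    intro d
    induction d with
    | zero => exact Nat.find_spec hex
    | succ d ih => exact fun hh => ih (hdown _ hh)
  apply Nat.eq_of_testBit_eq
  intro k
  rw [Bool.eq_iff_iff, testBit_kk]
  constructor
  · intro hk
    obtain ⟨i, rfl⟩ := hpow k hk
    refine ⟨i, ?_, rfl⟩
    by_contra hi
    push Not at hi
    obtain ⟨d, hd⟩ := Nat.exists_eq_add_of_le hi
    exact hge d (hd ▸ hk)
  · rintro ⟨i, hi, rfl⟩
    exact hlt i hi

end A1

open A1 in
theorem RR_iff (n : ℤ) : n ∈ RR ↔ ∃ N : ℕ, n = (kk N : ℤ) := by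
  rw [mem_RR_iff]
  constructor
  · rintro ⟨h0, h⟩
    have hn : 0 ≤ n := by
      by_contra hneg
      push Not at hneg
      obtain ⟨e, he⟩ : ∃ e : ℕ, -n < 4 ^ (e + 1) := by
        refine ⟨n.natAbs, ?_⟩
        have h1 : n.natAbs < 4 ^ (n.natAbs + 1) :=
          lt_trans (Nat.lt_pow_self (by norm_num : 1 < 4))
            (Nat.pow_lt_pow_right (by norm_num) (Nat.lt_succ_self _))
        have h2 : (-n) = (n.natAbs : ℤ) := by omega
        rw [h2]
        exact_mod_cast h1
      have h3 : n / 4 ^ (e + 1) = -1 := by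
        have hpos : (0 : ℤ) < 4 ^ (e + 1) := by positivity
        apply le_antisymm
        · have := Int.ediv_neg_of_neg_of_pos hneg hpos
          omega
        · rw [Int.le_ediv_iff_mul_le hpos]
          linarith
      have h4 := h e
      unfold Cond at h4
      rw [h3] at h4
      omega
    obtain ⟨m, rfl⟩ := Int.eq_ofNat_of_zero_le hn
    obtain ⟨N, hN⟩ := exists_kk m (by
      rw [← Bool.not_eq_true, testBit_iff, pow_zero, Nat.div_one]
      omega) (fun e => (cond_nat m (e + 1)).mp (h e))
    exact ⟨N, by rw [hN]⟩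
  · rintro ⟨N, rfl⟩
    constructor
    · have h1 : ¬ (kk N).testBit 0 = true := by
        rw [testBit_kk]
        rintro ⟨i, -, hi⟩
        have := Nat.one_le_two_pow (n := i)
        omega
      rw [testBit_iff, pow_zero, Nat.div_one] at h1
      omega
    · intro e
      rw [cond_nat]
      constructor
      · rw [← Bool.not_eq_true, testBit_kk]
        rintro ⟨i, -, hi⟩
        cases i with
        | zero => simp at hi
        | succ i => rw [pow_succ] at hi; omega
      · rw [testBit_kk, testBit_kk]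
        rintro ⟨i, hi, h2⟩
        cases i with
        | zero => omega
        | succ i => exact ⟨i, by omega, by rw [pow_succ] at h2; omega⟩

end Pool.Agent.MP_374aea_al
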