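import Pool.Agent.Work.MP_374aea_al.Defs

set_option autoImplicit false

namespace Pool.Agent.MP_374aea_al

theorem growth (s A B : ℕ) : ∃ u0 : ℕ, ∀ u ≥ u0, A + B * u ^ s < 2 ^ u := by
  have h := tendsto_pow_const_div_const_pow_of_one_lt s (one_lt_two : (1 : ℝ) < 2)
  have hpos : (0 : ℝ) < 1 / (2 * (B + 1)) := by positivity
  have h1 := (h.eventually (gt_mem_nhds hpos)).exists_forall_of_atTop
  obtain ⟨u1, hu1⟩ := h1
  refine ⟨max u1 (2 * A), ?_⟩
  intro u hu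
  have h2 := hu1 u (le_trans (le_max_left _ _) hu)
  have h3 : 2 * A ≤ u := le_trans (le_max_right _ _) hu
  have h4 : u < 2 ^ u := Nat.lt_two_pow_self
  have h5 : (0 : ℝ) < 2 ^ u := by positivity
  rw [div_lt_div_iff₀ h5 (by positivity)] at h2
  have h6 : u ^ s * (2 * (B + 1)) < 1 * 2 ^ u := by exact_mod_cast h2
  nlinarith [Nat.zero_le (u ^ s)]

theorem kk_succ (N : ℕ) : kk (N + 1) = kk N + 2 ^ 2 ^ N := by
  unfold kk
  rw [Finset.sum_range_succ]

theorem kk_le (c : ℕ) : kk (c + 1) ≤ 2 * 2 ^ 2 ^ c := by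
  induction c with
  | zero => unfold kk; decide
  | succ c ih =>
    rw [kk_succ]
    have h1 : (2 : ℕ) ^ 2 ^ (c + 1) = 2 ^ 2 ^ c * 2 ^ 2 ^ c := by
      rw [← pow_add]
      congr 1
      rw [pow_succ]; ring
    have h2 : 2 ≤ 2 ^ 2 ^ c := by
      calc 2 = 2 ^ 1 := rfl
        _ ≤ _ := Nat.pow_le_pow_right (by norm_num) (Nat.one_le_two_pow)
    nlinarith

theorem kk_lt {N N' : ℕ} (h : N < N') : kk N < kk N' := by
  induction N' with
  | zero => omega
  | succ n ih =>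
    rw [kk_succ]
    have h1 : 0 < 2 ^ 2 ^ n := by positivity
    rcases Nat.lt_succ_iff_lt_or_eq.mp h with h2 | h2
    · have := ih h2
      omega
    · rw [h2]
      omega

theorem two_pow_pow_one (C : ℕ) (i : ℕ) (hi : C ≤ i) :
    (2 : ZMod (2 ^ 2 ^ C - 1)) ^ 2 ^ i = 1 := by
  have h0 : (2 : ZMod (2 ^ 2 ^ C - 1)) ^ 2 ^ C = 1 := by
    have h1 : ((2 ^ 2 ^ C - 1 + 1 : ℕ) : ZMod (2 ^ 2 ^ C - 1)) = 1 := by
      rw [Nat.cast_add, ZMod.natCast_self, zero_add, Nat.cast_one]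
    have h2 : 2 ^ 2 ^ C - 1 + 1 = 2 ^ 2 ^ C := by
      have : 0 < 2 ^ 2 ^ C := by positivity
      omega
    rw [h2] at h1
    rw [← h1]
    push_cast
    rfl
  obtain ⟨t, rfl⟩ := Nat.exists_eq_add_of_le hi
  rw [pow_add 2 C t, pow_mul, h0, one_pow]

theorem kk_cast (C t : ℕ) :
    ((kk (C + t) : ℕ) : ZMod (2 ^ 2 ^ C - 1)) = ((kk C + t : ℕ) : ZMod (2 ^ 2 ^ C - 1)) := by
  induction t with
  | zero => rfl
  | succ t ih =>
    rw [← Nat.add_assoc C t 1, kk_succ, Nat.cast_add, ih, ← Nat.add_assoc (kk C) t 1,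
      Nat.cast_add _ 1, Nat.cast_one, Nat.cast_pow, Nat.cast_ofNat,
      two_pow_pow_one C (C + t) (Nat.le_add_right _ _)]

theorem arith (s a b : ℕ) : ∃ m N' : ℕ, 0 < m ∧
    (∀ N < N', ((kk N : ℕ) : ZMod m) ≠ ((kk N' : ℕ) : ZMod m)) ∧
    a * b ^ (1 + s + m ^ s * (s + 1) ^ 2) < kk N' := by
  obtain ⟨u0, hu0⟩ := growth s (a + b + b * s) (b * (2 ^ s * (s + 1) ^ 2))
  set c : ℕ := u0 + 3 with hc
  set q : ℕ := 2 ^ 2 ^ c with hq
  have hqq : 2 ^ 2 ^ (c + 1) = q * q := by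
    rw [hq, ← pow_add]
    congr 1
    rw [pow_succ]; ring
  have hcq : c < q := lt_trans Nat.lt_two_pow_self Nat.lt_two_pow_self
  have hq8 : 8 ≤ q := by
    have h1 : 3 ≤ 2 ^ c := le_trans (by omega) (Nat.lt_two_pow_self (n := c)).le
    calc 8 = 2 ^ 3 := rfl
      _ ≤ 2 ^ 2 ^ c := Nat.pow_le_pow_right (by norm_num) h1
  obtain ⟨v, hv⟩ : ∃ v, q = 2 * v := by
    refine ⟨2 ^ (2 ^ c - 1), ?_⟩
    rw [hq, ← pow_succ']
    congr 1
    have : 0 < 2 ^ c := by positivity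
    omega
  set m : ℕ := 2 ^ 2 ^ (c + 1) - 1 with hm
  have hm' : m + 1 = q * q := by
    have : 0 < q * q := by positivity
    omega
  have hk := kk_le c
  rw [← hq] at hk
  have hkm : kk (c + 1) + 2 + v * q ≤ m := by nlinarith
  refine ⟨m, (c + 1) + (m - 1 - kk (c + 1)), by omega, ?_, ?_⟩
  · intro N hN
    have h1 : ((kk ((c + 1) + (m - 1 - kk (c + 1))) : ℕ) : ZMod m) = ((m - 1 : ℕ) : ZMod m) := by
      have h2 := kk_cast (c + 1) (m - 1 - kk (c + 1))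
      rw [← hm] at h2
      rw [h2]
      congr 1
      omega
    rw [h1]
    have hred : ∀ x : ℕ, x < m - 1 → ((x : ℕ) : ZMod m) ≠ ((m - 1 : ℕ) : ZMod m) := by
      intro x hx hcon
      rw [ZMod.natCast_eq_natCast_iff] at hcon
      have h3 := Nat.ModEq.eq_of_lt_of_lt hcon (by omega) (by omega)
      omega
    by_cases hNc : N < c + 1
    · apply hred
      have := kk_lt hNc
      omega
    · obtain ⟨t, rfl⟩ := Nat.exists_eq_add_of_le (not_lt.mp hNc)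
      have h2 := kk_cast (c + 1) t
      rw [← hm] at h2
      rw [h2]
      apply hred
      omega
  · have h1 : (c + 1) + (m - 1 - kk (c + 1)) = (c + (m - 1 - kk (c + 1))) + 1 := by omega
    rw [h1, kk_succ]
    have h2 : v * q ≤ c + (m - 1 - kk (c + 1)) := by omega
    have h3 : (2 : ℕ) ^ 2 ^ (v * q) ≤ 2 ^ 2 ^ (c + (m - 1 - kk (c + 1))) :=
      Nat.pow_le_pow_right (by norm_num) (Nat.pow_le_pow_right (by norm_num) h2)
    have h4 : a * b ^ (1 + s + m ^ s * (s + 1) ^ 2) < 2 ^ 2 ^ (v * q) := by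
      have h5 := hu0 (v * q) (by nlinarith)
      have h6 : a ≤ 2 ^ a := (Nat.lt_two_pow_self (n := a)).le
      have h7 : b ≤ 2 ^ b := (Nat.lt_two_pow_self (n := b)).le
      have h8 : m ≤ 2 * (v * q) := by nlinarith
      calc a * b ^ (1 + s + m ^ s * (s + 1) ^ 2)
          ≤ 2 ^ a * (2 ^ b) ^ (1 + s + m ^ s * (s + 1) ^ 2) :=
            Nat.mul_le_mul h6 (Nat.pow_le_pow_left h7 _)
        _ = 2 ^ (a + b * (1 + s + m ^ s * (s + 1) ^ 2)) := by rw [← pow_mul, ← pow_add]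
        _ < 2 ^ 2 ^ (v * q) := by
          apply Nat.pow_lt_pow_right (by norm_num)
          have h9 : m ^ s ≤ (2 * (v * q)) ^ s := Nat.pow_le_pow_left h8 s
          rw [mul_pow] at h9
          calc a + b * (1 + s + m ^ s * (s + 1) ^ 2)
              ≤ a + b * (1 + s + 2 ^ s * (v * q) ^ s * (s + 1) ^ 2) := by gcongr
            _ = (a + b + b * s) + b * (2 ^ s * (s + 1) ^ 2) * (v * q) ^ s := by ring
            _ < _ := h5
    omega

end Pool.Agent.MP_374aea_al
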