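import Pool.Agent.Work.MP_374aea_al.Defs

set_option autoImplicit false
set_option linter.unusedSectionVars false
set_option linter.unusedVariables false

namespace Pool.Agent.MP_374aea_al
namespace ModB

variable {m : ℕ} [NeZero m] {s : ℕ}

/-- The group algebra of the cyclic group. -/
abbrev AA (m : ℕ) := AddMonoidAlgebra (ZMod 2) (ZMod m)
/-- Three by three matrices. -/
abbrev MM (m : ℕ) := Matrix (Fin 3) (Fin 3) (AA m)

/-- The matrix of an element. -/
noncomputable def matF (x : UT (ZMod m)) : MM m := !![1, x.A, x.C; 0, T x.s, x.B; 0, 0, 1]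

theorem matF_one : matF (1 : UT (ZMod m)) = 1 := by
  unfold matF
  rw [UT.one_A, UT.one_B, UT.one_C, UT.one_s, T_zero]
  ext i j
  fin_cases i <;> fin_cases j <;> simp

theorem matF_mul (x y : UT (ZMod m)) : matF (x * y) = matF x * matF y := by
  unfold matF
  rw [UT.mul_A, UT.mul_B, UT.mul_C, UT.mul_s, T_add]
  ext1 i j
  rw [Matrix.mul_apply, Fin.sum_univ_three]
  fin_cases i <;> fin_cases j <;> simp <;> ring

/-- The matrix representation. -/
noncomputable def mat : UT (ZMod m) →* MM m where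
  toFun := matF
  map_one' := matF_one
  map_mul' := matF_mul

/-- Tuples. -/
abbrev Th (m s : ℕ) := Fin s → UT (ZMod m)
/-- Functions on tuples with values in matrices. -/
abbrev VV (m s : ℕ) := Th m s → MM m

/-- Evaluation. -/
noncomputable def ev : FreeGroup (Fin s) →* VV m s where
  toFun x := fun θ => mat (FreeGroup.lift θ x)
  map_one' := by
    funext θ
    simp
  map_mul' x y := by
    funext θ
    simp

theorem ev_apply (x : FreeGroup (Fin s)) (θ : Th m s) : ev x θ = mat (FreeGroup.lift θ x) := rfl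

/-- The substitution by an endomorphism. -/
noncomputable def sbt (φ : Monoid.End (FreeGroup (Fin s))) : VV m s →ₗ[ZMod 2] VV m s where
  toFun f := fun θ => f (fun c => FreeGroup.lift θ (φ (FreeGroup.of c)))
  map_add' f g := rfl
  map_smul' a f := rfl

theorem sbt_apply (φ : Monoid.End (FreeGroup (Fin s))) (f : VV m s) (θ : Th m s) :
    sbt φ f θ = f (fun c => FreeGroup.lift θ (φ (FreeGroup.of c))) := rfl

theorem sbt_mul (φ : Monoid.End (FreeGroup (Fin s))) (f g : VV m s) :
    sbt φ (f * g) = sbt φ f * sbt φ g := rfl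

theorem sbt_one (φ : Monoid.End (FreeGroup (Fin s))) :
    sbt φ (1 : VV m s) = 1 := rfl

theorem sbt_ev (φ : Monoid.End (FreeGroup (Fin s))) (x : FreeGroup (Fin s)) :
    sbt φ (ev x : VV m s) = ev (φ x) := by
  funext θ
  rw [sbt_apply, ev_apply, ev_apply]
  congr 1
  have h : (FreeGroup.lift (fun c => FreeGroup.lift θ (φ (FreeGroup.of c))) :
      FreeGroup (Fin s) →* UT (ZMod m)) = (FreeGroup.lift θ).comp φ := by
    ext1 c
    rw [FreeGroup.lift_apply_of]
    rfl
  rw [h]
  rfl

/-! ### The finite spanning set -/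

/-- Index type. -/
abbrev Ix (m s : ℕ) :=
  Unit ⊕ Fin s ⊕ ((Fin s → ZMod m) × Option (Fin s) × Option (Fin s))

theorem card_Ix : Fintype.card (Ix m s) = 1 + s + m ^ s * (s + 1) ^ 2 := by
  simp only [Ix, Fintype.card_sum, Fintype.card_prod, Fintype.card_option, Fintype.card_fin,
    Fintype.card_unit, Fintype.card_pi, ZMod.card, Finset.prod_const, Finset.card_univ]
  ring

/-- The monomial part. -/
noncomputable def tt (n : Fin s → ZMod m) (θ : Th m s) : AA m := T (∑ c, n c * (θ c).s)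

theorem tt_zero (θ : Th m s) : tt (0 : Fin s → ZMod m) θ = 1 := by
  unfold tt
  simp [T_zero]

theorem tt_add (n k : Fin s → ZMod m) (θ : Th m s) : tt (n + k) θ = tt n θ * tt k θ := by
  unfold tt
  rw [← T_add, ← Finset.sum_add_distrib]
  congr 1
  apply Finset.sum_congr rfl
  intro c _
  rw [Pi.add_apply, add_mul]

theorem tt_single (c : Fin s) (θ : Th m s) : tt (Pi.single c 1) θ = T (θ c).s := by
  unfold tt
  congr 1
  simp [Pi.single_apply]

theorem tt_single_neg (c : Fin s) (θ : Th m s) : tt (-Pi.single c 1) θ = T (-(θ c).s) := by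
  unfold tt
  congr 1
  simp [Pi.single_apply]

/-- The left factor. -/
noncomputable def la (θ : Th m s) : Option (Fin s) → AA m
  | none => 1
  | some c => (θ c).A
/-- The right factor. -/
noncomputable def lb (θ : Th m s) : Option (Fin s) → AA m
  | none => 1
  | some c => (θ c).B
/-- The row. -/
def row : Option (Fin s) → Fin 3
  | none => 1
  | some _ => 0
/-- The column. -/
def col : Option (Fin s) → Fin 3
  | none => 1
  | some _ => 2

/-- The vectors of the third kind. -/
noncomputable def e2 (n : Fin s → ZMod m) (x y : Option (Fin s)) : VV m s :=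
  fun θ => Matrix.single (row x) (col y) (la θ x * tt n θ * lb θ y)
/-- The vectors of the second kind. -/
noncomputable def e1 (c : Fin s) : VV m s := fun θ => Matrix.single 0 2 (θ c).C
/-- The vector of the first kind. -/
noncomputable def e0 : VV m s := fun _ => Matrix.single 0 0 1 + Matrix.single 2 2 1

/-- The family. -/
noncomputable def vec : Ix m s → VV m s
  | Sum.inl _ => e0
  | Sum.inr (Sum.inl c) => e1 c
  | Sum.inr (Sum.inr (n, x, y)) => e2 n x y

/-- The span. -/
noncomputable def SS (m s : ℕ) [NeZero m] : Submodule (ZMod 2) (VV m s) :=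
  Submodule.span (ZMod 2) (Set.range (vec (m := m) (s := s)))

theorem e0_mem : (e0 : VV m s) ∈ SS m s := Submodule.subset_span ⟨Sum.inl (), rfl⟩
theorem e1_mem (c : Fin s) : (e1 c : VV m s) ∈ SS m s :=
  Submodule.subset_span ⟨Sum.inr (Sum.inl c), rfl⟩
theorem e2_mem (n : Fin s → ZMod m) (x y : Option (Fin s)) : (e2 n x y : VV m s) ∈ SS m s :=
  Submodule.subset_span ⟨Sum.inr (Sum.inr (n, x, y)), rfl⟩

theorem ev_of (c : Fin s) (θ : Th m s) :
    (ev (FreeGroup.of c) : VV m s) θ = !![1, (θ c).A, (θ c).C; 0, T (θ c).s, (θ c).B; 0, 0, 1] := by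
  rw [ev_apply, FreeGroup.lift_apply_of]
  rfl

theorem ev_of_inv (c : Fin s) (θ : Th m s) :
    (ev (FreeGroup.of c)⁻¹ : VV m s) θ =
      !![1, -((θ c).A * T (-(θ c).s)), -(θ c).C + (θ c).A * T (-(θ c).s) * (θ c).B;
        0, T (-(θ c).s), -(T (-(θ c).s) * (θ c).B); 0, 0, 1] := by
  rw [ev_apply, map_inv, FreeGroup.lift_apply_of]
  rfl

theorem e0_mul_of (c : Fin s) :
    (e0 * ev (FreeGroup.of c) : VV m s) = e0 + e2 0 (some c) none + e1 c := by
  funext θ
  rw [Pi.mul_apply, ev_of, Pi.add_apply, Pi.add_apply]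
  unfold e0 e2 e1
  simp only [row, col, la, lb, tt_zero]
  ext1 i j
  rw [Matrix.mul_apply, Fin.sum_univ_three]
  fin_cases i <;> fin_cases j <;> simp [Matrix.single]

theorem e1_mul_of (d c : Fin s) :
    (e1 d * ev (FreeGroup.of c) : VV m s) = e1 d := by
  funext θ
  rw [Pi.mul_apply, ev_of]
  unfold e1
  ext1 i j
  rw [Matrix.mul_apply, Fin.sum_univ_three]
  fin_cases i <;> fin_cases j <;> simp [Matrix.single]

theorem e2_mul_of_none (n : Fin s → ZMod m) (x : Option (Fin s)) (c : Fin s) :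
    (e2 n x none * ev (FreeGroup.of c) : VV m s) =
      e2 (n + Pi.single c 1) x none + e2 n x (some c) := by
  funext θ
  rw [Pi.mul_apply, ev_of, Pi.add_apply]
  unfold e2
  simp only [col, lb, tt_add, tt_single]
  ext1 i j
  rw [Matrix.mul_apply, Fin.sum_univ_three]
  rcases x with _ | x <;> fin_cases i <;> fin_cases j <;> simp [Matrix.single, row] <;> ring

theorem e2_mul_of_some (n : Fin s → ZMod m) (x : Option (Fin s)) (y c : Fin s) :
    (e2 n x (some y) * ev (FreeGroup.of c) : VV m s) = e2 n x (some y) := by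
  funext θ
  rw [Pi.mul_apply, ev_of]
  unfold e2
  ext1 i j
  rw [Matrix.mul_apply, Fin.sum_univ_three]
  rcases x with _ | x <;> fin_cases i <;> fin_cases j <;> simp [Matrix.single, row, col]

theorem e0_mul_inv (c : Fin s) :
    (e0 * ev (FreeGroup.of c)⁻¹ : VV m s) =
      e0 - e2 (-Pi.single c 1) (some c) none - e1 c + e2 (-Pi.single c 1) (some c) (some c) := by
  funext θ
  rw [Pi.mul_apply, ev_of_inv, Pi.add_apply, Pi.sub_apply, Pi.sub_apply]
  unfold e0 e2 e1
  simp only [row, col, la, lb, tt_single_neg]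
  ext1 i j
  rw [Matrix.mul_apply, Fin.sum_univ_three]
  fin_cases i <;> fin_cases j <;> simp [Matrix.single]

theorem e1_mul_inv (d c : Fin s) :
    (e1 d * ev (FreeGroup.of c)⁻¹ : VV m s) = e1 d := by
  funext θ
  rw [Pi.mul_apply, ev_of_inv]
  unfold e1
  ext1 i j
  rw [Matrix.mul_apply, Fin.sum_univ_three]
  fin_cases i <;> fin_cases j <;> simp [Matrix.single]

theorem e2_mul_inv_none (n : Fin s → ZMod m) (x : Option (Fin s)) (c : Fin s) :
    (e2 n x none * ev (FreeGroup.of c)⁻¹ : VV m s) =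
      e2 (n + -Pi.single c 1) x none - e2 (n + -Pi.single c 1) x (some c) := by
  funext θ
  rw [Pi.mul_apply, ev_of_inv, Pi.sub_apply]
  unfold e2
  simp only [col, lb, tt_add, tt_single_neg]
  ext1 i j
  rw [Matrix.mul_apply, Fin.sum_univ_three]
  rcases x with _ | x <;> fin_cases i <;> fin_cases j <;> simp [Matrix.single, row] <;> ring

theorem e2_mul_inv_some (n : Fin s → ZMod m) (x : Option (Fin s)) (y c : Fin s) :
    (e2 n x (some y) * ev (FreeGroup.of c)⁻¹ : VV m s) = e2 n x (some y) := by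
  funext θ
  rw [Pi.mul_apply, ev_of_inv]
  unfold e2
  ext1 i j
  rw [Matrix.mul_apply, Fin.sum_univ_three]
  rcases x with _ | x <;> fin_cases i <;> fin_cases j <;> simp [Matrix.single, row, col]

theorem SS_mul_of_span (g : VV m s) (h : ∀ i, vec i * g ∈ SS m s) :
    ∀ f ∈ SS m s, f * g ∈ SS m s := by
  intro f hf
  unfold SS at hf
  induction hf using Submodule.span_induction with
  | mem x hx =>
    obtain ⟨i, rfl⟩ := hx
    exact h i
  | zero =>
    rw [zero_mul]
    exact Submodule.zero_mem _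
  | add x y _ _ hx hy =>
    rw [add_mul]
    exact Submodule.add_mem _ hx hy
  | smul a x _ hx =>
    rw [smul_mul_assoc]
    exact Submodule.smul_mem _ _ hx

theorem SS_mul_of (c : Fin s) : ∀ f ∈ SS m s, f * ev (FreeGroup.of c) ∈ SS m s := by
  apply SS_mul_of_span
  intro i
  rcases i with _ | d | ⟨n, x, y⟩
  · change e0 * ev (FreeGroup.of c) ∈ SS m s
    rw [e0_mul_of]
    exact Submodule.add_mem _ (Submodule.add_mem _ e0_mem (e2_mem _ _ _)) (e1_mem _)
  · change e1 d * ev (FreeGroup.of c) ∈ SS m s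
    rw [e1_mul_of]
    exact e1_mem _
  · change e2 n x y * ev (FreeGroup.of c) ∈ SS m s
    rcases y with _ | y
    · rw [e2_mul_of_none]
      exact Submodule.add_mem _ (e2_mem _ _ _) (e2_mem _ _ _)
    · rw [e2_mul_of_some]
      exact e2_mem _ _ _

theorem SS_mul_inv (c : Fin s) : ∀ f ∈ SS m s, f * ev (FreeGroup.of c)⁻¹ ∈ SS m s := by
  apply SS_mul_of_span
  intro i
  rcases i with _ | d | ⟨n, x, y⟩
  · change e0 * ev (FreeGroup.of c)⁻¹ ∈ SS m s
    rw [e0_mul_inv]
    exact Submodule.add_mem _ (Submodule.sub_mem _ (Submodule.sub_mem _ e0_mem (e2_mem _ _ _))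
      (e1_mem _)) (e2_mem _ _ _)
  · change e1 d * ev (FreeGroup.of c)⁻¹ ∈ SS m s
    rw [e1_mul_inv]
    exact e1_mem _
  · change e2 n x y * ev (FreeGroup.of c)⁻¹ ∈ SS m s
    rcases y with _ | y
    · rw [e2_mul_inv_none]
      exact Submodule.sub_mem _ (e2_mem _ _ _) (e2_mem _ _ _)
    · rw [e2_mul_inv_some]
      exact e2_mem _ _ _

theorem one_mem_SS : (1 : VV m s) ∈ SS m s := by
  have h : (1 : VV m s) = e0 + e2 0 none none := by
    funext θ
    rw [Pi.add_apply, Pi.one_apply]
    unfold e0 e2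
    simp only [row, col, la, lb, tt_zero]
    ext1 i j
    fin_cases i <;> fin_cases j <;> simp [Matrix.single]
  rw [h]
  exact Submodule.add_mem _ e0_mem (e2_mem _ _ _)

theorem SS_mul_ev (w : FreeGroup (Fin s)) : ∀ f ∈ SS m s, f * ev w ∈ SS m s := by
  induction w using FreeGroup.induction_on with
  | C1 =>
    intro f hf
    rw [map_one, mul_one]
    exact hf
  | of c => exact SS_mul_of c
  | inv_of c _ => exact SS_mul_inv c
  | mul x y hx hy =>
    intro f hf
    rw [map_mul, ← mul_assoc]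
    exact hy _ (hx _ hf)

theorem ev_mem_SS (w : FreeGroup (Fin s)) : (ev w : VV m s) ∈ SS m s := by
  have := SS_mul_ev w 1 (one_mem_SS (m := m))
  rwa [one_mul] at this

instance : FiniteDimensional (ZMod 2) (SS m s) := by
  unfold SS
  exact FiniteDimensional.span_of_finite _ (Set.finite_range _)

theorem finrank_SS : Module.finrank (ZMod 2) (SS m s) ≤ 1 + s + m ^ s * (s + 1) ^ 2 := by
  rw [← card_Ix (m := m) (s := s)]
  exact finrank_range_le_card _

/-! ### The chain -/

/-- The generators of the chain. -/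
def Gk (m : ℕ) [NeZero m] (Φ : Set (Monoid.End (FreeGroup (Fin s)))) (R : Set (FreeGroup (Fin s)))
    (k : ℕ) : Set (VV m s) :=
  {f | ∃ g h : FreeGroup (Fin s), ∃ L : List (Monoid.End (FreeGroup (Fin s))),
    (∀ φ ∈ L, φ ∈ Φ) ∧ L.length ≤ k ∧ ∃ r ∈ R, f = ev g * (ev (L.prod r) - 1) * ev h}

/-- The chain. -/
noncomputable def Wk (m : ℕ) [NeZero m] (Φ : Set (Monoid.End (FreeGroup (Fin s))))
    (R : Set (FreeGroup (Fin s))) (k : ℕ) : Submodule (ZMod 2) (VV m s) :=
  Submodule.span (ZMod 2) (Gk m Φ R k)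

variable (Φ : Set (Monoid.End (FreeGroup (Fin s)))) (R : Set (FreeGroup (Fin s)))

theorem Wk_mono {k l : ℕ} (h : k ≤ l) : Wk m Φ R k ≤ Wk m Φ R l := by
  apply Submodule.span_mono
  rintro f ⟨g, h', L, hL, hlen, r, hr, rfl⟩
  exact ⟨g, h', L, hL, hlen.trans h, r, hr, rfl⟩

theorem Wk_le (k : ℕ) : Wk m Φ R k ≤ SS m s := by
  unfold Wk
  rw [Submodule.span_le]
  rintro f ⟨g, h', L, hL, hlen, r, hr, rfl⟩
  have : (ev g * (ev (L.prod r) - 1) * ev h' : VV m s) = ev (g * L.prod r * h') - ev (g * h') := by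
    rw [map_mul, map_mul, map_mul, mul_sub, sub_mul, mul_one]
  rw [this]
  exact Submodule.sub_mem _ (ev_mem_SS _) (ev_mem_SS _)

theorem Wk_mul_left (k : ℕ) (g : FreeGroup (Fin s)) (f : VV m s) (hf : f ∈ Wk m Φ R k) :
    ev g * f ∈ Wk m Φ R k := by
  unfold Wk at hf
  induction hf using Submodule.span_induction with
  | mem x hx =>
    obtain ⟨g', h', L, hL, hlen, r, hr, rfl⟩ := hx
    apply Submodule.subset_span
    exact ⟨g * g', h', L, hL, hlen, r, hr, by rw [map_mul]; simp only [mul_assoc]⟩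
  | zero =>
    rw [mul_zero]
    exact Submodule.zero_mem _
  | add x y _ _ hx hy =>
    rw [mul_add]
    exact Submodule.add_mem _ hx hy
  | smul a x _ hx =>
    rw [mul_smul_comm]
    exact Submodule.smul_mem _ _ hx

theorem Wk_mul_right (k : ℕ) (g : FreeGroup (Fin s)) (f : VV m s) (hf : f ∈ Wk m Φ R k) :
    f * ev g ∈ Wk m Φ R k := by
  unfold Wk at hf
  induction hf using Submodule.span_induction with
  | mem x hx =>
    obtain ⟨g', h', L, hL, hlen, r, hr, rfl⟩ := hx
    apply Submodule.subset_span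
    exact ⟨g', h' * g, L, hL, hlen, r, hr, by rw [map_mul]; simp only [mul_assoc]⟩
  | zero =>
    rw [zero_mul]
    exact Submodule.zero_mem _
  | add x y _ _ hx hy =>
    rw [add_mul]
    exact Submodule.add_mem _ hx hy
  | smul a x _ hx =>
    rw [smul_mul_assoc]
    exact Submodule.smul_mem _ _ hx

theorem sbt_Wk (k : ℕ) (φ : Monoid.End (FreeGroup (Fin s))) (hφ : φ ∈ Φ) (f : VV m s)
    (hf : f ∈ Wk m Φ R k) : sbt φ f ∈ Wk m Φ R (k + 1) := by
  unfold Wk at hf
  induction hf using Submodule.span_induction with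
  | mem x hx =>
    obtain ⟨g', h', L, hL, hlen, r, hr, rfl⟩ := hx
    apply Submodule.subset_span
    refine ⟨φ g', φ h', φ :: L, ?_, ?_, r, hr, ?_⟩
    · intro ψ hψ
      rcases List.mem_cons.1 hψ with h | h
      · rw [h]; exact hφ
      · exact hL ψ h
    · rw [List.length_cons]
      omega
    · rw [sbt_mul, sbt_mul, map_sub, sbt_one, sbt_ev, sbt_ev, sbt_ev, List.prod_cons]
      rfl
  | zero =>
    rw [map_zero]
    exact Submodule.zero_mem _
  | add x y _ _ hx hy =>
    rw [map_add]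
    exact Submodule.add_mem _ hx hy
  | smul a x _ hx =>
    rw [map_smul]
    exact Submodule.smul_mem _ _ hx

theorem gen_mem (k : ℕ) (L : List (Monoid.End (FreeGroup (Fin s)))) (hL : ∀ φ ∈ L, φ ∈ Φ)
    (hk : L.length ≤ k) (r : FreeGroup (Fin s)) (hr : r ∈ R) :
    (ev (L.prod r) - 1 : VV m s) ∈ Wk m Φ R k := by
  apply Submodule.subset_span
  exact ⟨1, 1, L, hL, hk, r, hr, by rw [map_one, one_mul, mul_one]⟩

theorem Wk_step (k : ℕ) (h : Wk m Φ R (k + 1) ≤ Wk m Φ R k) :
    Wk m Φ R (k + 2) ≤ Wk m Φ R (k + 1) := by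
  conv_lhs => unfold Wk
  rw [Submodule.span_le]
  rintro f ⟨g, h', L, hL, hlen, r, hr, rfl⟩
  apply Wk_mul_right
  apply Wk_mul_left
  rcases L with _ | ⟨φ, L'⟩
  · exact gen_mem Φ R (k + 1) [] hL (by simp) r hr
  · have h1 : (ev (L'.prod r) - 1 : VV m s) ∈ Wk m Φ R (k + 1) :=
      gen_mem Φ R (k + 1) L' (fun ψ hψ => hL ψ (List.mem_cons_of_mem _ hψ))
        (by rw [List.length_cons] at hlen; omega) r hr
    have h2 := sbt_Wk Φ R k φ (hL φ List.mem_cons_self) _ (h h1)
    rw [map_sub, sbt_one, sbt_ev] at h2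
    rw [List.prod_cons]
    exact h2

theorem chain_bound (W : ℕ → Submodule (ZMod 2) (VV m s)) (D : ℕ)
    (hmono : ∀ k, W k ≤ W (k + 1)) (hle : ∀ k, W k ≤ SS m s)
    (hD : Module.finrank (ZMod 2) (SS m s) ≤ D)
    (hstep : ∀ k, W (k + 1) ≤ W k → W (k + 2) ≤ W (k + 1)) :
    ∀ n, W n ≤ W D := by
  have hm : Monotone W := monotone_nat_of_le_succ hmono
  have hfd : ∀ k, FiniteDimensional (ZMod 2) (W k) := fun k =>
    Submodule.finiteDimensional_of_le (hle k)
  have hex : ∃ k ≤ D, W (k + 1) ≤ W k := by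
    by_contra hcon
    push Not at hcon
    have hlt : ∀ k ≤ D, W k < W (k + 1) := fun k hk => lt_of_le_not_ge (hmono k) (hcon k hk)
    have hr : ∀ k, k ≤ D + 1 → k ≤ Module.finrank (ZMod 2) (W k) := by
      intro k
      induction k with
      | zero => intro _; exact Nat.zero_le _
      | succ k ih =>
        intro hk
        have h1 := ih (by omega)
        have := hfd (k + 1)
        have h2 := Submodule.finrank_lt_finrank_of_lt (hlt k (by omega))
        omega
    have h1 := hr (D + 1) le_rfl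
    have h2 := Submodule.finrank_mono (hle (D + 1))
    omega
  obtain ⟨k, hkD, hk⟩ := hex
  have hall : ∀ j, W (k + j + 1) ≤ W (k + j) := by
    intro j
    induction j with
    | zero => exact hk
    | succ j ih => exact hstep (k + j) ih
  have hall2 : ∀ j, W (k + j) ≤ W k := by
    intro j
    induction j with
    | zero => exact le_rfl
    | succ j ih => exact (hall j).trans ih
  intro n
  rcases le_total n k with h | h
  · exact (hm h).trans (hm hkD)
  · obtain ⟨j, rfl⟩ := Nat.exists_eq_add_of_le h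
    exact (hall2 j).trans (hm hkD)

/-- The linear functional. -/
noncomputable def lam (θ0 : Th m s) (j : ZMod m) (f : VV m s) : ZMod 2 := (f θ0 0 2).coeff j

theorem mat_sub_one (x : UT (ZMod m)) (hs : x.s = 0) (hA : x.A = 0) (hB : x.B = 0) :
    mat x - 1 = Matrix.single 0 2 x.C := by
  change matF x - 1 = _
  unfold matF
  rw [hs, hA, hB, T_zero]
  ext1 i j
  fin_cases i <;> fin_cases j <;> simp [Matrix.single]

theorem mat_sandwich (g h : UT (ZMod m)) (u : AA m) :
    (mat g * Matrix.single 0 2 u * mat h : MM m) 0 2 = u := by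
  change (matF g * Matrix.single 0 2 u * matF h : MM m) 0 2 = u
  unfold matF
  rw [Matrix.mul_apply, Fin.sum_univ_three, Matrix.mul_apply, Matrix.mul_apply, Matrix.mul_apply,
    Fin.sum_univ_three, Fin.sum_univ_three, Fin.sum_univ_three]
  simp [Matrix.single]

end ModB

open ModB in
theorem chain (m : ℕ) [NeZero m] (s : ℕ) (ρ : FreeGroup (Fin s) →* UT (ZMod m))
    (Φ : Set (Monoid.End (FreeGroup (Fin s)))) (R : Set (FreeGroup (Fin s))) (j : ZMod m)
    (hc : ∀ φ ∈ Submonoid.closure Φ, ∀ r ∈ R,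
      (ρ (φ r)).s = 0 ∧ (ρ (φ r)).A = 0 ∧ (ρ (φ r)).B = 0)
    (h0 : ∀ L : List (Monoid.End (FreeGroup (Fin s))), (∀ φ ∈ L, φ ∈ Φ) →
      L.length ≤ 1 + s + m ^ s * (s + 1) ^ 2 → ∀ r ∈ R, (ρ (L.prod r)).C.coeff j = 0) :
    ∀ φ ∈ Submonoid.closure Φ, ∀ r ∈ R, (ρ (φ r)).C.coeff j = 0 := by
  intro φ hφ r hr
  have hlift : (FreeGroup.lift (fun c => ρ (FreeGroup.of c)) : FreeGroup (Fin s) →* UT (ZMod m))
      = ρ := by
    ext1 c
    simp
  have hev : ∀ x, (ev x : VV m s) (fun c => ρ (FreeGroup.of c)) = mat (ρ x) := by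
    intro x
    rw [ev_apply, hlift]
  have hb := chain_bound (Wk m Φ R) (1 + s + m ^ s * (s + 1) ^ 2)
    (fun k => Wk_mono Φ R (Nat.le_succ k)) (Wk_le Φ R) finrank_SS (Wk_step Φ R)
  -- the functional vanishes on the bounded part
  have hlam : ∀ f ∈ Wk m Φ R (1 + s + m ^ s * (s + 1) ^ 2),
      (f (fun c => ρ (FreeGroup.of c)) 0 2).coeff j = 0 := by
    intro f hf
    unfold Wk at hf
    induction hf using Submodule.span_induction with
    | mem x hx =>
      obtain ⟨g', h', L, hL, hlen, r, hr, rfl⟩ := hx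
      have hLc : L.prod ∈ Submonoid.closure Φ :=
        Submonoid.list_prod_mem _ (fun ψ hψ => Submonoid.subset_closure (hL ψ hψ))
      obtain ⟨h1, h2, h3⟩ := hc _ hLc r hr
      rw [Pi.mul_apply, Pi.mul_apply, Pi.sub_apply, hev, hev, hev, Pi.one_apply,
        mat_sub_one _ h1 h2 h3, mat_sandwich]
      exact h0 L hL hlen r hr
    | zero => simp
    | add x y _ _ hx hy =>
      rw [Pi.add_apply, Matrix.add_apply]
      simp [hx, hy]
    | smul a x _ hx =>
      rw [Pi.smul_apply, Matrix.smul_apply]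
      simp [hx]
  obtain ⟨L, hL, rfl⟩ := Submonoid.exists_list_of_mem_closure hφ
  have hmem : (ev (L.prod r) - 1 : VV m s) ∈ Wk m Φ R L.length := gen_mem Φ R _ L hL le_rfl r hr
  have h1 := hlam _ (hb _ hmem)
  obtain ⟨h2, h3, h4⟩ := hc _ hφ r hr
  rw [Pi.sub_apply, hev, Pi.one_apply, mat_sub_one _ h2 h3 h4] at h1
  simpa [Matrix.single] using h1

end Pool.Agent.MP_374aea_al
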