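import Pool.Agent.Work.MP_374aea_al.Defs

set_option autoImplicit false
set_option linter.unusedSectionVars false
set_option linter.unusedVariables false

namespace Pool.Agent.MP_374aea_al

/-- the homomorphism to `EE` -/
def kap : FreeGroup (Fin 3) →* EE := FreeGroup.lift gen3
/-- the homomorphism to the matrices -/
noncomputable def rho3 : FreeGroup (Fin 3) →* UT ℤ := FreeGroup.lift ![gt, ga, gb]

namespace ModC

/-! ### Digit lists -/

/-- The list whose memories are the digits. -/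
def mem : ℤ → ℤ → ℕ → List Pt
  | _, _, 0 => []
  | i, j, (k + 1) => ((0, 0), (dg2 i, dg4 j)) :: mem (i / 2) (j / 4) k

/-- The state after reading the digits. -/
def stt : St → ℤ → ℤ → ℕ → St
  | q, _, _, 0 => q
  | q, i, j, (k + 1) => stt (step q (dg2 i, dg4 j)) (i / 2) (j / 4) k

theorem mem_length (i j : ℤ) (k : ℕ) : (mem i j k).length = k := by
  induction k generalizing i j with
  | zero => rfl
  | succ k ih => rw [mem, List.length_cons, ih]

theorem mem_allZero (i j : ℤ) (k : ℕ) : AllZero (mem i j k) := by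
  induction k generalizing i j with
  | zero =>
    intro p hp
    rw [mem] at hp
    exact absurd hp List.not_mem_nil
  | succ k ih =>
    intro p hp
    rw [mem] at hp
    rcases List.mem_cons.1 hp with h | h
    · rw [h]
    · exact ih _ _ p h

theorem stt_fail (i j : ℤ) (k : ℕ) : stt .fail i j k = .fail := by
  induction k generalizing i j with
  | zero => rfl
  | succ k ih => rw [stt]; exact ih _ _

theorem stt_mono (q : St) (i j : ℤ) (k l : ℕ) (h : stt q i j k = .fail) :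
    stt q i j (k + l) = .fail := by
  induction k generalizing q i j with
  | zero =>
    rw [stt] at h
    rw [h, stt_fail]
  | succ k ih =>
    rw [show k + 1 + l = (k + l) + 1 by omega, stt]
    exact ih _ _ _ h

theorem dg2_eq_iff (i j : ℤ) : dg2 i = dg2 j ↔ i % 2 = j % 2 := by
  rw [Fin.ext_iff]
  have h1 := dg2_val i
  have h2 := dg2_val j
  omega

theorem dg4_eq_iff (i j : ℤ) : dg4 i = dg4 j ↔ i % 4 = j % 4 := by
  rw [Fin.ext_iff]
  have h1 := dg4_val i
  have h2 := dg4_val j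
  omega

theorem addL_fst_zero (i j : ℤ) (p : Pt) (hp : p.1 = ((0, 0) : Fin 2 × Fin 4)) :
    (addL i j p).1 = (dg2 i, dg4 j) := by
  unfold addL
  rw [hp]
  simp

theorem addL_snd (i j : ℤ) (p : Pt) : (addL i j p).2 = p.2 := rfl

theorem c1_zero' (i : ℤ) (p : Pt) (hp : p.1 = ((0, 0) : Fin 2 × Fin 4)) : c1 i p = i / 2 := by
  unfold c1
  rw [hp]
  simp

theorem c2_zero' (j : ℤ) (p : Pt) (hp : p.1 = ((0, 0) : Fin 2 × Fin 4)) : c2 j p = j / 4 := by
  unfold c2
  rw [hp]
  simp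

theorem stt_of_ne (l : List Pt) (hl : AllZero l) (q : St) (i j : ℤ)
    (h : Fb q (addP i j l) ≠ 1) : stt q i j l.length = .fail := by
  induction l generalizing q i j with
  | nil =>
    rw [addP_nil, Fb] at h
    by_contra hq
    rw [List.length_nil, stt] at hq
    rw [if_neg hq] at h
    exact h rfl
  | cons p l ih =>
    have hp : p.1 = ((0, 0) : Fin 2 × Fin 4) := hl p List.mem_cons_self
    rw [addP_cons, Fb, addL_fst_zero i j p hp, addL_snd, c1_zero' i p hp, c2_zero' j p hp] at h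
    by_cases hy : (dg2 i, dg4 j) = p.2
    · rw [if_pos hy] at h
      rw [List.length_cons, stt, hy]
      exact ih (fun x hx => hl x (List.mem_cons_of_mem _ hx)) _ _ _ h
    · rw [if_neg hy] at h
      exact absurd rfl h

theorem dvd_succ2 (k : ℕ) (i j : ℤ) : (2 : ℤ) ^ (k + 1) ∣ i - j ↔
    i % 2 = j % 2 ∧ (2 : ℤ) ^ k ∣ i / 2 - j / 2 := by
  rw [pow_succ]
  constructor
  · rintro ⟨c, hc⟩
    have h2 : i - j = 2 * (2 ^ k * c) := by rw [hc]; ring
    refine ⟨by omega, c, by omega⟩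
  · rintro ⟨h, c, hc⟩
    refine ⟨c, ?_⟩
    have : i - j = 2 * (i / 2 - j / 2) := by omega
    rw [this, hc]
    ring

theorem dvd_succ4 (k : ℕ) (i j : ℤ) : (4 : ℤ) ^ (k + 1) ∣ i - j ↔
    i % 4 = j % 4 ∧ (4 : ℤ) ^ k ∣ i / 4 - j / 4 := by
  rw [pow_succ]
  constructor
  · rintro ⟨c, hc⟩
    have h2 : i - j = 4 * (4 ^ k * c) := by rw [hc]; ring
    refine ⟨by omega, c, by omega⟩
  · rintro ⟨h, c, hc⟩
    refine ⟨c, ?_⟩
    have : i - j = 4 * (i / 4 - j / 4) := by omega
    rw [this, hc]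
    ring

theorem Fa_addP (l : List Pt) (hl : AllZero l) (i j : ℤ) :
    Fa (addP i j l) = if (2 : ℤ) ^ l.length ∣ i ∧ (4 : ℤ) ^ l.length ∣ j then D3.ea else 1 := by
  induction l generalizing i j with
  | nil =>
    rw [addP_nil, Fa, List.length_nil]
    simp
  | cons p l ih =>
    have hp : p.1 = ((0, 0) : Fin 2 × Fin 4) := hl p List.mem_cons_self
    rw [addP_cons, Fa, addL_fst_zero i j p hp, c1_zero' i p hp, c2_zero' j p hp,
      ih (fun x hx => hl x (List.mem_cons_of_mem _ hx)), List.length_cons]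
    have h2 := dvd_succ2 l.length i 0
    have h4 := dvd_succ4 l.length j 0
    have e2 := dg2_eq_iff i 0
    have e4 := dg4_eq_iff j 0
    have d2 : dg2 0 = 0 := rfl
    have d4 : dg4 0 = 0 := rfl
    rw [d2] at e2
    rw [d4] at e4
    simp only [sub_zero, Int.zero_ediv] at h2 h4
    by_cases hc : (dg2 i, dg4 j) = ((0, 0) : Fin 2 × Fin 4)
    · rw [if_pos hc]
      have hc1 := (Prod.ext_iff.1 hc).1
      have hc2 := (Prod.ext_iff.1 hc).2
      simp only at hc1 hc2
      have a1 := e2.1 hc1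
      have a2 := e4.1 hc2
      congr 1
      rw [h2, h4]
      exact propext ⟨fun h => ⟨⟨a1, h.1⟩, ⟨a2, h.2⟩⟩, fun h => ⟨h.1.2, h.2.2⟩⟩
    · rw [if_neg hc, if_neg]
      rintro ⟨h, h'⟩
      apply hc
      rw [e2.2 (h2.1 h).1, e4.2 (h4.1 h').1]

theorem Fb_addP_mem (k : ℕ) (q : St) (i j n n' : ℤ) :
    Fb q (addP i j (mem n n' k)) = if (2 : ℤ) ^ k ∣ i - n ∧ (4 : ℤ) ^ k ∣ j - n' then
      (if stt q n n' k = .fail then D3.eb else 1) else 1 := by
  induction k generalizing q i j n n' with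
  | zero =>
    rw [mem, addP_nil, Fb, stt]
    simp
  | succ k ih =>
    rw [mem, addP_cons, Fb, addL_fst_zero i j _ rfl, addL_snd, c1_zero' i _ rfl,
      c2_zero' j _ rfl, ih, stt]
    have e2 := dg2_eq_iff i n
    have e4 := dg4_eq_iff j n'
    have h2 := dvd_succ2 k i n
    have h4 := dvd_succ4 k j n'
    by_cases hc : (dg2 i, dg4 j) = (dg2 n, dg4 n')
    · rw [if_pos hc]
      have a1 := e2.1 (Prod.ext_iff.1 hc).1
      have a2 := e4.1 (Prod.ext_iff.1 hc).2
      by_cases hd : (2 : ℤ) ^ k ∣ i / 2 - n / 2 ∧ (4 : ℤ) ^ k ∣ j / 4 - n' / 4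
      · have hd' : (2 : ℤ) ^ (k + 1) ∣ i - n ∧ (4 : ℤ) ^ (k + 1) ∣ j - n' :=
          ⟨h2.2 ⟨a1, hd.1⟩, h4.2 ⟨a2, hd.2⟩⟩
        rw [if_pos hd, if_pos hd']
      · rw [if_neg hd, if_neg (fun h => hd ⟨(h2.1 h.1).2, (h4.1 h.2).2⟩)]
    · rw [if_neg hc, if_neg]
      rintro ⟨h, h'⟩
      apply hc
      rw [e2.2 (h2.1 h).1, e4.2 (h4.1 h').1]

theorem addP_congr (l : List Pt) (i j i' j' : ℤ) (hi : (2 : ℤ) ^ l.length ∣ i - i')
    (hj : (4 : ℤ) ^ l.length ∣ j - j') : addP i j l = addP i' j' l := by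
  induction l generalizing i j i' j' with
  | nil => rfl
  | cons p l ih =>
    rw [List.length_cons] at hi hj
    have h1 : (2 : ℤ) ^ (l.length + 1) ∣ (((p.1.1 : ℕ) : ℤ) + i) - (((p.1.1 : ℕ) : ℤ) + i') := by
      rw [add_sub_add_left_eq_sub]; exact hi
    have h2 : (4 : ℤ) ^ (l.length + 1) ∣ (((p.1.2 : ℕ) : ℤ) + j) - (((p.1.2 : ℕ) : ℤ) + j') := by
      rw [add_sub_add_left_eq_sub]; exact hj
    rw [dvd_succ2] at h1
    rw [dvd_succ4] at h2
    rw [addP_cons, addP_cons, ih (c1 i p) (c2 j p) (c1 i' p) (c2 j' p) h1.2 h2.2]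
    unfold addL
    rw [(dg2_eq_iff _ _).2 h1.1, (dg4_eq_iff _ _).2 h2.1]

/-! ### The finite cyclic picture -/

section Fin

variable (n : ℤ) (k : ℕ)

/-- The modulus. -/
abbrev MM (k : ℕ) : ℕ := 4 ^ k

instance : NeZero (MM k) := ⟨by positivity⟩

/-- The lists. -/
def LM (x : ZMod (MM k)) : List Pt := addP ((x.val : ℕ) : ℤ) ((x.val : ℕ) : ℤ) (mem n n k)

theorem two_dvd_of_four {k : ℕ} {a : ℤ} (h : (4 : ℤ) ^ k ∣ a) : (2 : ℤ) ^ k ∣ a :=
  (pow_dvd_pow_of_dvd (by norm_num : (2 : ℤ) ∣ 4) k).trans h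

theorem LM_cast (i : ℤ) : LM n k (i : ZMod (MM k)) = addP i i (mem n n k) := by
  unfold LM
  have h : (4 : ℤ) ^ k ∣ (((i : ZMod (MM k)).val : ℕ) : ℤ) - i := by
    rw [ZMod.val_intCast]
    have : ((MM k : ℕ) : ℤ) = (4 : ℤ) ^ k := by simp [MM]
    rw [this]
    have h1 := Int.emod_add_mul_ediv i ((4 : ℤ) ^ k)
    refine ⟨-(i / 4 ^ k), ?_⟩
    linarith
  apply addP_congr
  · rw [mem_length]; exact two_dvd_of_four h
  · rw [mem_length]; exact h

theorem addP_LM (σ : ℤ) (x : ZMod (MM k)) : addP σ σ (LM n k x) = LM n k (x + (σ : ZMod (MM k))) := by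
  have hx : x + (σ : ZMod (MM k)) = ((σ + ((x.val : ℕ) : ℤ) : ℤ) : ZMod (MM k)) := by
    push_cast
    rw [ZMod.natCast_zmod_val, add_comm]
  rw [hx, LM_cast]
  unfold LM
  rw [addP_add]

theorem dvd_iff_cast (i : ℤ) : (4 : ℤ) ^ k ∣ i ↔ (i : ZMod (MM k)) = 0 := by
  rw [ZMod.intCast_zmod_eq_zero_iff_dvd]
  have : ((MM k : ℕ) : ℤ) = (4 : ℤ) ^ k := by simp [MM]
  rw [this]

theorem Fa_LM (x : ZMod (MM k)) : Fa (LM n k x) = if x = 0 then D3.ea else 1 := by
  have hx : x = (((x.val : ℕ) : ℤ) : ZMod (MM k)) := by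
    push_cast
    rw [ZMod.natCast_zmod_val]
  rw [hx, LM_cast, Fa_addP _ (mem_allZero _ _ _), mem_length]
  congr 1
  rw [← dvd_iff_cast]
  exact propext ⟨fun h => h.2, fun h => ⟨two_dvd_of_four h, h⟩⟩

theorem Fb_LM (hk : stt .start n n k = .fail) (x : ZMod (MM k)) :
    Fb .start (LM n k x) = if x = (n : ZMod (MM k)) then D3.eb else 1 := by
  have hx : x = (((x.val : ℕ) : ℤ) : ZMod (MM k)) := by
    push_cast
    rw [ZMod.natCast_zmod_val]
  rw [hx, LM_cast, Fb_addP_mem, if_pos hk]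
  congr 1
  rw [← sub_eq_zero (a := ((((x.val : ℕ) : ℤ) : ZMod (MM k)))), ← Int.cast_sub, ← dvd_iff_cast]
  exact propext ⟨fun h => h.2, fun h => ⟨two_dvd_of_four h, h⟩⟩

/-- Reduction of the group algebra. -/
noncomputable def red : AddMonoidAlgebra (ZMod 2) ℤ →+* AddMonoidAlgebra (ZMod 2) (ZMod (MM k)) :=
  AddMonoidAlgebra.mapDomainRingHom (ZMod 2) (Int.castAddHom (ZMod (MM k)))

theorem red_T (i : ℤ) : red k (T i) = T ((i : ZMod (MM k))) := by
  unfold red T
  rw [AddMonoidAlgebra.mapDomainRingHom_apply, AddMonoidAlgebra.mapDomain_single]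
  rfl

/-- The coefficient functional. -/
noncomputable def cf (y : ZMod (MM k)) : AddMonoidAlgebra (ZMod 2) (ZMod (MM k)) →+ ZMod 2 :=
  (Finsupp.applyAddHom y).comp AddMonoidAlgebra.coeffAddEquiv.toAddMonoidHom

theorem cf_apply (y : ZMod (MM k)) (u : AddMonoidAlgebra (ZMod 2) (ZMod (MM k))) :
    cf k y u = u.coeff y := rfl

theorem cf_smul_T (y g : ZMod (MM k)) (c : ZMod 2) :
    cf k y (c • T g) = if g = y then c else 0 := by
  rw [cf_apply]
  unfold T
  simp [Finsupp.single_apply]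

/-- The invariant. -/
structure Inv (e : EE) (u : UT ℤ) : Prop where
  hj : e.j = e.i
  hs : u.s = e.i
  hA : red k u.A = ∑ x : ZMod (MM k), (e.F (LM n k x)).a • T (-x)
  hB : red k u.B = ∑ x : ZMod (MM k), (e.F (LM n k x)).b • T (x + (e.i : ZMod (MM k)) - (n : ZMod (MM k)))
  hC : cf k (-(n : ZMod (MM k))) (red k u.C) = ∑ x : ZMod (MM k), (e.F (LM n k x)).c

theorem mul_F_LM (e e' : EE) (h : e'.j = e'.i) (x : ZMod (MM k)) :
    (e * e').F (LM n k x) = e.F (LM n k (x + (e'.i : ZMod (MM k)))) * e'.F (LM n k x) := by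
  rw [EE.mul_F, h, addP_LM]

theorem Inv_one : Inv n k 1 1 := by
  constructor
  · rfl
  · rfl
  · rw [UT.one_A, map_zero]
    symm
    apply Finset.sum_eq_zero
    intro x _
    rw [EE.one_F, D3.one_a, zero_smul]
  · rw [UT.one_B, map_zero]
    symm
    apply Finset.sum_eq_zero
    intro x _
    rw [EE.one_F, D3.one_b, zero_smul]
  · rw [UT.one_C, map_zero, map_zero]
    symm
    apply Finset.sum_eq_zero
    intro x _
    rw [EE.one_F, D3.one_c]

theorem sum_shift {α : Type} [AddCommMonoid α] (g : ZMod (MM k) → α) (c : ZMod (MM k)) :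
    ∑ x, g (x + c) = ∑ x, g x :=
  Fintype.sum_equiv (Equiv.addRight c) _ _ (fun x => rfl)

theorem Inv_mul (e e' : EE) (u u' : UT ℤ) (h : Inv n k e u) (h' : Inv n k e' u') :
    Inv n k (e * e') (u * u') := by
  have hF := mul_F_LM n k e e' h'.hj
  constructor
  · rw [EE.mul_i, EE.mul_j, h.hj, h'.hj]
  · rw [EE.mul_i, UT.mul_s, h.hs, h'.hs]
  · rw [UT.mul_A, map_add, map_mul, h.hA, h'.hA, h'.hs, red_T]
    simp only [hF, D3.mul_a, add_smul, Finset.sum_add_distrib]
    rw [add_comm]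
    congr 1
    rw [← sum_shift k (fun x => (e.F (LM n k x)).a • T (-x)) (e'.i : ZMod (MM k)), Finset.sum_mul]
    apply Finset.sum_congr rfl
    intro x _
    rw [smul_mul_assoc, ← T_add]
    congr 2
    ring
  · rw [UT.mul_B, map_add, map_mul, h.hB, h'.hB, h.hs, red_T]
    simp only [hF, D3.mul_b, add_smul, Finset.sum_add_distrib]
    congr 1
    · rw [← sum_shift k (fun x => (e.F (LM n k x)).b • T (x + (e.i : ZMod (MM k)) - (n : ZMod (MM k))))
        (e'.i : ZMod (MM k))]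
      apply Finset.sum_congr rfl
      intro x _
      rw [EE.mul_i]
      congr 2
      push_cast
      ring
    · rw [Finset.mul_sum]
      apply Finset.sum_congr rfl
      intro x _
      rw [mul_smul_comm, ← T_add, EE.mul_i]
      congr 2
      push_cast
      ring
  · rw [UT.mul_C, map_add, map_add, map_mul, map_add, map_add, h.hC, h'.hC, h.hA, h'.hB]
    simp only [hF, D3.mul_c, Finset.sum_add_distrib]
    rw [sum_shift k (fun x => (e.F (LM n k x)).c) (e'.i : ZMod (MM k))]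
    congr 1
    rw [Finset.sum_mul_sum, Finset.sum_comm, map_sum]
    apply Finset.sum_congr rfl
    intro y _
    rw [map_sum, Finset.sum_eq_single (y + (e'.i : ZMod (MM k)))]
    · rw [smul_mul_smul_comm, ← T_add, cf_smul_T, if_pos]
      ring
    · intro x _ hx
      rw [smul_mul_smul_comm, ← T_add, cf_smul_T, if_neg]
      intro hcon
      apply hx
      have : x - (y + (e'.i : ZMod (MM k))) = 0 := by
        have h3 : -x + (y + (e'.i : ZMod (MM k)) - (n : ZMod (MM k))) + (n : ZMod (MM k)) = 0 := by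
          rw [hcon]; ring
        have h4 : x - (y + (e'.i : ZMod (MM k))) =
          -(-x + (y + (e'.i : ZMod (MM k)) - (n : ZMod (MM k))) + (n : ZMod (MM k))) := by ring
        rw [h4, h3, neg_zero]
      exact sub_eq_zero.1 this
    · intro h
      exact absurd (Finset.mem_univ _) h

theorem Inv_tr (c : ℤ) : Inv n k (EE.tr c c) ⟨c, 0, 0, 0⟩ := by
  constructor
  · rfl
  · rfl
  · change red k 0 = ∑ x : ZMod (MM k), ((1 : D3).a) • T (-x)
    rw [map_zero, D3.one_a]
    simp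
  · change red k 0 = ∑ x : ZMod (MM k), ((1 : D3).b) • _
    rw [map_zero, D3.one_b]
    simp
  · change cf k _ (red k 0) = ∑ x : ZMod (MM k), ((1 : D3).c)
    rw [map_zero, map_zero, D3.one_c]
    simp

theorem Inv_a : Inv n k (EE.lamp Fa) ga := by
  constructor
  · rfl
  · rfl
  · change red k 1 = ∑ x : ZMod (MM k), (Fa (LM n k x)).a • T (-x)
    rw [map_one, Finset.sum_eq_single 0]
    · rw [Fa_LM, if_pos rfl, neg_zero, T_zero]
      change (1 : AddMonoidAlgebra (ZMod 2) (ZMod (MM k))) = (1 : ZMod 2) • 1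
      rw [one_smul]
    · intro x _ hx
      rw [Fa_LM, if_neg hx, D3.one_a, zero_smul]
    · intro h
      exact absurd (Finset.mem_univ _) h
  · change red k 0 = ∑ x : ZMod (MM k), (Fa (LM n k x)).b • _
    rw [map_zero]
    symm
    apply Finset.sum_eq_zero
    intro x _
    have : (Fa (LM n k x)).b = 0 := by
      rw [Fa_LM]
      split_ifs <;> rfl
    rw [this, zero_smul]
  · change cf k _ (red k 0) = ∑ x : ZMod (MM k), (Fa (LM n k x)).c
    rw [map_zero, map_zero]
    symm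
    apply Finset.sum_eq_zero
    intro x _
    rw [Fa_LM]
    split_ifs <;> rfl

theorem Inv_b (hk : stt .start n n k = .fail) : Inv n k (EE.lamp (Fb .start)) gb := by
  constructor
  · rfl
  · rfl
  · change red k 0 = ∑ x : ZMod (MM k), (Fb .start (LM n k x)).a • _
    rw [map_zero]
    symm
    apply Finset.sum_eq_zero
    intro x _
    have : (Fb .start (LM n k x)).a = 0 := by
      rw [Fb_LM n k hk]
      split_ifs <;> rfl
    rw [this, zero_smul]
  · change red k 1 = ∑ x : ZMod (MM k), (Fb .start (LM n k x)).b •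
      T (x + ((0 : ℤ) : ZMod (MM k)) - (n : ZMod (MM k)))
    rw [map_one, Finset.sum_eq_single (n : ZMod (MM k))]
    · rw [Fb_LM n k hk, if_pos rfl, Int.cast_zero, add_zero, sub_self, T_zero]
      change (1 : AddMonoidAlgebra (ZMod 2) (ZMod (MM k))) = (1 : ZMod 2) • 1
      rw [one_smul]
    · intro x _ hx
      rw [Fb_LM n k hk, if_neg hx, D3.one_b, zero_smul]
    · intro h
      exact absurd (Finset.mem_univ _) h
  · change cf k _ (red k 0) = ∑ x : ZMod (MM k), (Fb .start (LM n k x)).c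
    rw [map_zero, map_zero]
    symm
    apply Finset.sum_eq_zero
    intro x _
    rw [Fb_LM n k hk]
    split_ifs <;> rfl

theorem inv_tr (c : ℤ) : (EE.tr c c)⁻¹ = EE.tr (-c) (-c) := by
  apply EE.ext
  · funext l
    rw [EE.inv_F]
    change (1 : D3)⁻¹ = 1
    exact inv_one
  · rfl
  · rfl

theorem inv_ut (c : ℤ) : (⟨c, 0, 0, 0⟩ : UT ℤ)⁻¹ = ⟨-c, 0, 0, 0⟩ := by
  apply UT.ext
  · rfl
  · rw [UT.inv_A]; simp
  · rw [UT.inv_B]; simp
  · rw [UT.inv_C]; simp

theorem inv_lamp (F : List Pt → D3) (hF : ∀ l, F l * F l = 1) :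
    (EE.lamp F)⁻¹ = EE.lamp F := by
  rw [inv_eq_iff_mul_eq_one]
  apply EE.ext
  · funext l
    rw [EE.mul_F]
    change F (addP 0 0 l) * F l = 1
    rw [addP_zero, hF]
  · rfl
  · rfl

theorem Fa_sq (l : List Pt) : Fa l * Fa l = 1 := by
  induction l with
  | nil => rw [Fa]; decide
  | cons p l ih =>
    rw [Fa]
    split_ifs
    · exact ih
    · exact one_mul 1

theorem Fb_sq (q : St) (l : List Pt) : Fb q l * Fb q l = 1 := by
  induction l generalizing q with
  | nil =>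
    rw [Fb]
    split_ifs
    · decide
    · exact one_mul 1
  | cons p l ih =>
    rw [Fb]
    split_ifs
    · exact ih _
    · exact one_mul 1

theorem inv_ga : ga⁻¹ = ga := by
  rw [inv_eq_iff_mul_eq_one]
  unfold ga
  apply UT.ext
  · rfl
  · rw [UT.mul_A]
    change (1 : AddMonoidAlgebra (ZMod 2) ℤ) + 1 * T 0 = 0
    rw [T_zero, one_mul, ← two_smul (ZMod 2) (1 : AddMonoidAlgebra (ZMod 2) ℤ)]
    have : (2 : ZMod 2) = 0 := rfl
    rw [this, zero_smul]
  · rw [UT.mul_B]; simp; rfl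
  · rw [UT.mul_C]; simp; rfl

theorem inv_gb : gb⁻¹ = gb := by
  rw [inv_eq_iff_mul_eq_one]
  unfold gb
  apply UT.ext
  · rfl
  · rw [UT.mul_A]; simp; rfl
  · rw [UT.mul_B]
    change (1 : AddMonoidAlgebra (ZMod 2) ℤ) + T 0 * 1 = 0
    rw [T_zero, one_mul, ← two_smul (ZMod 2) (1 : AddMonoidAlgebra (ZMod 2) ℤ)]
    have : (2 : ZMod 2) = 0 := rfl
    rw [this, zero_smul]
  · rw [UT.mul_C]; simp; rfl

theorem Inv_all (hk : stt .start n n k = .fail) (w : FreeGroup (Fin 3)) :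
    Inv n k (kap w) (rho3 w) := by
  have hof : ∀ c : Fin 3, Inv n k (kap (FreeGroup.of c)) (rho3 (FreeGroup.of c)) := by
    intro c
    unfold kap rho3
    rw [FreeGroup.lift_apply_of, FreeGroup.lift_apply_of]
    fin_cases c
    · exact Inv_tr n k 1
    · exact Inv_a n k
    · exact Inv_b n k hk
  induction w using FreeGroup.induction_on with
  | C1 =>
    rw [map_one, map_one]
    exact Inv_one n k
  | of c => exact hof c
  | inv_of c _ =>
    unfold kap rho3
    rw [map_inv, map_inv, FreeGroup.lift_apply_of, FreeGroup.lift_apply_of]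
    fin_cases c
    · change Inv n k (EE.tr 1 1)⁻¹ (⟨1, 0, 0, 0⟩ : UT ℤ)⁻¹
      rw [inv_tr, inv_ut]
      exact Inv_tr n k (-1)
    · change Inv n k (EE.lamp Fa)⁻¹ ga⁻¹
      rw [inv_lamp Fa Fa_sq, inv_ga]
      exact Inv_a n k
    · change Inv n k (EE.lamp (Fb .start))⁻¹ gb⁻¹
      rw [inv_lamp _ (Fb_sq _), inv_gb]
      exact Inv_b n k hk
  | mul x y hx hy =>
    rw [map_mul, map_mul]
    exact Inv_mul n k _ _ _ _ hx hy

end Fin

/-! ### Lifting back to the integers -/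

theorem coeff_red (u : AddMonoidAlgebra (ZMod 2) ℤ) (j : ℤ) :
    ∃ K : ℕ, ∀ k, K ≤ k → (red k u).coeff (j : ZMod (MM k)) = u.coeff j := by
  classical
  let S : Finset ℤ := insert j u.coeff.support
  obtain ⟨K, hK⟩ : ∃ K : ℕ, ∀ x ∈ S, |x| ≤ (K : ℤ) := by
    refine ⟨(S.sup fun x => x.natAbs), fun x hx => ?_⟩
    have : x.natAbs ≤ S.sup fun x => x.natAbs := Finset.le_sup (f := fun x : ℤ => x.natAbs) hx
    rw [← Int.natCast_natAbs]
    exact_mod_cast this
  refine ⟨2 * K + 1, fun k hk => ?_⟩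
  have hinj : Set.InjOn (Int.cast : ℤ → ZMod (MM k)) (S : Set ℤ) := by
    intro x hx y hy hxy
    have hx' := hK x hx
    have hy' := hK y hy
    have h1 : ((x - y : ℤ) : ZMod (MM k)) = 0 := by
      push_cast
      rw [sub_eq_zero]
      exact hxy
    rw [← dvd_iff_cast] at h1
    have h2 : (k : ℤ) < (4 : ℤ) ^ k := by
      have : k < 4 ^ k := Nat.lt_pow_self (by norm_num)
      exact_mod_cast this
    have h3 : |x - y| < (4 : ℤ) ^ k := by
      have := abs_sub x y
      have hk' : (2 * (K : ℤ) + 1) ≤ (k : ℤ) := by exact_mod_cast hk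
      linarith
    have h4 := Int.eq_zero_of_abs_lt_dvd h1 h3
    linarith
  have h5 : (red k u).coeff = Finsupp.mapDomain (Int.cast : ℤ → ZMod (MM k)) u.coeff := by
    unfold red
    rfl
  rw [h5]
  exact Finsupp.mapDomain_apply' (S : Set ℤ) u.coeff
    (fun x hx => Finset.mem_coe.2 (Finset.mem_insert_of_mem hx)) hinj
    (Finset.mem_coe.2 (Finset.mem_insert_self _ _))

theorem not_RR {n : ℤ} (h : n ∉ RR) : ∃ K : ℕ, ∀ k, K ≤ k → stt .start n n k = .fail := by
  unfold RR at h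
  rw [Set.mem_ofPred_eq] at h
  push Not at h
  obtain ⟨l, hl, hne⟩ := h
  refine ⟨l.length, fun k hk => ?_⟩
  obtain ⟨c, rfl⟩ := Nat.exists_eq_add_of_le hk
  exact stt_mono _ _ _ _ _ (stt_of_ne l hl _ _ _ hne)

theorem one_not_RR : (1 : ℤ) ∉ RR := by
  intro h
  have h1 := h [(((0, 0) : Fin 2 × Fin 4), ((1, 1) : Fin 2 × Fin 4))] (by
    intro p hp
    rw [List.mem_singleton] at hp
    rw [hp])
  revert h1
  decide

end ModC

open ModC in
theorem rep (w : FreeGroup (Fin 3)) (hw : kap w = 1) :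
    (rho3 w).s = 0 ∧ (rho3 w).A = 0 ∧ (rho3 w).B = 0 ∧
      ∀ j : ℤ, (rho3 w).C.coeff j ≠ 0 → -j ∈ RR := by
  obtain ⟨K1, hK1⟩ := not_RR one_not_RR
  have hA0 : ∀ k, K1 ≤ k → red k (rho3 w).A = 0 := by
    intro k hk
    have h := (Inv_all 1 k (hK1 k hk) w).hA
    rw [h, hw]
    apply Finset.sum_eq_zero
    intro x _
    rw [EE.one_F, D3.one_a, zero_smul]
  have hB0 : ∀ k, K1 ≤ k → red k (rho3 w).B = 0 := by
    intro k hk
    have h := (Inv_all 1 k (hK1 k hk) w).hB
    rw [h, hw]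
    apply Finset.sum_eq_zero
    intro x _
    rw [EE.one_F, D3.one_b, zero_smul]
  refine ⟨?_, ?_, ?_, ?_⟩
  · have h := (Inv_all 1 K1 (hK1 K1 le_rfl) w).hs
    rw [h, hw]
    rfl
  · ext j
    obtain ⟨K2, hK2⟩ := coeff_red (rho3 w).A j
    have h1 := hK2 (max K1 K2) (le_max_right _ _)
    rw [hA0 _ (le_max_left _ _)] at h1
    rw [← h1]
    rfl
  · ext j
    obtain ⟨K2, hK2⟩ := coeff_red (rho3 w).B j
    have h1 := hK2 (max K1 K2) (le_max_right _ _)
    rw [hB0 _ (le_max_left _ _)] at h1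
    rw [← h1]
    rfl
  · intro j hj
    by_contra hn
    obtain ⟨K3, hK3⟩ := not_RR hn
    obtain ⟨K2, hK2⟩ := coeff_red (rho3 w).C j
    have h1 := hK2 (max K3 K2) (le_max_right _ _)
    have h := (Inv_all (-j) (max K3 K2) (hK3 _ (le_max_left _ _)) w).hC
    rw [hw, cf_apply, Int.cast_neg, neg_neg, h1] at h
    apply hj
    rw [h]
    apply Finset.sum_eq_zero
    intro x _
    rw [EE.one_F, D3.one_c]

end Pool.Agent.MP_374aea_al
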