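import Pool.Agent.Work.MP_374aea_al.Defs

set_option autoImplicit false

namespace Pool.Agent.MP_374aea_al

/-- `D3` acts faithfully. -/
theorem D3_eq_one (g : D3) (h : ∀ z : Zt, g • z = z) : g = 1 := by
  have h0 := h (0, 0)
  have h1 := h (0, 1)
  rw [D3.smul_def] at h0 h1
  simp only [Prod.mk.injEq, mul_zero, mul_one, zero_add] at h0 h1
  obtain ⟨hc, hb⟩ := h0
  obtain ⟨ha, _⟩ := h1
  apply D3.ext
  · change g.a = 0
    rw [hc, add_zero] at ha
    exact ha
  · exact hb
  · exact hc

theorem actE_triv (k : ℕ) : ∀ e : EE, (∀ w : List Xt, actE e w = w) →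
    (∀ l : List Pt, l.length ≤ k → e.F l = 1) ∧ (2 : ℤ) ^ k ∣ e.i ∧ (2 : ℤ) ^ k ∣ e.j := by
  induction k with
  | zero =>
    intro e he
    refine ⟨?_, by simp, by simp⟩
    intro l hl
    have hl' : l = [] := List.length_eq_zero_iff.mp (by omega)
    rw [hl']
    apply D3_eq_one
    intro z
    have h := he [some (((0, 0), (0, 0)), z)]
    rw [actE_some, actE_nil] at h
    have h2 := Option.some.inj (List.cons.inj h).1
    exact (Prod.mk.inj h2).2
  | succ k ih =>
    intro e he
    have hs : ∀ p : Pt, addL e.i e.j p = p ∧ e.F [] = 1 ∧ ∀ w, actE (e.shift p) w = w := by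
      intro p
      have h1 : ∀ (z : Zt) (w : List Xt),
          (addL e.i e.j p = p ∧ e.F [] • z = z) ∧ actE (e.shift p) w = w := by
        intro z w
        have h := he (some (p, z) :: w)
        rw [actE_some] at h
        have h2 := Prod.mk.inj (Option.some.inj (List.cons.inj h).1)
        exact ⟨h2, (List.cons.inj h).2⟩
      exact ⟨(h1 0 []).1.1, D3_eq_one _ (fun z => (h1 z []).1.2), fun w => (h1 0 w).2⟩
    refine ⟨?_, ?_, ?_⟩
    · intro l hl
      match l with
      | [] => exact (hs ((0, 0), (0, 0))).2.1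
      | (p :: l) =>
        have := (ih (e.shift p) (hs p).2.2).1 l (by simpa using hl)
        exact this
    · have h1 := (hs ((0, 0), (0, 0))).1
      have h2 : dg2 ((((0 : Fin 2) : ℕ) : ℤ) + e.i) = 0 := congrArg (fun q : Pt => q.1.1) h1
      have h3 := dg2_val ((((0 : Fin 2) : ℕ) : ℤ) + e.i)
      rw [h2] at h3
      have h4 := (ih _ (hs ((0, 0), (0, 0))).2.2).2.1
      have h5 : (e.shift ((0, 0), (0, 0))).i = e.i / 2 := by
        change c1 e.i ((0, 0), (0, 0)) = _
        unfold c1
        simp
      rw [h5] at h4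
      have h6 : e.i = 2 * (e.i / 2) := by
        simp at h3
        omega
      rw [h6, pow_succ, mul_comm]
      exact mul_dvd_mul_left 2 h4
    · have h1 := (hs ((0, 0), (0, 0))).1
      have h2 : dg4 ((((0 : Fin 4) : ℕ) : ℤ) + e.j) = 0 := congrArg (fun q : Pt => q.1.2) h1
      have h3 := dg4_val ((((0 : Fin 4) : ℕ) : ℤ) + e.j)
      rw [h2] at h3
      have h4 := (ih _ (hs ((0, 0), (0, 0))).2.2).2.2
      have h5 : (e.shift ((0, 0), (0, 0))).j = e.j / 4 := by
        change c2 e.j ((0, 0), (0, 0)) = _
        unfold c2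
        simp
      rw [h5] at h4
      have h6 : e.j = 2 * (2 * (e.j / 4)) := by
        simp at h3
        omega
      rw [h6, pow_succ, mul_comm]
      exact mul_dvd_mul_left 2 (Dvd.dvd.mul_left h4 2)

theorem eq_zero_of_dvd_pow (x : ℤ) (h : ∀ k : ℕ, (2 : ℤ) ^ k ∣ x) : x = 0 := by
  by_contra hx
  have h1 := Int.natAbs_dvd_natAbs.mpr (h x.natAbs)
  have h2 := Nat.le_of_dvd (Int.natAbs_pos.mpr hx) h1
  rw [Int.natAbs_pow] at h2
  have h3 : x.natAbs < 2 ^ x.natAbs := Nat.lt_two_pow_self
  have h4 : Int.natAbs 2 = 2 := rfl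
  rw [h4] at h2
  omega

theorem Act_inj : Function.Injective Act := by
  rw [injective_iff_map_eq_one]
  intro e he
  have h : ∀ w : List Xt, actE e w = w := by
    intro w
    rw [← Act_apply, he]
    rfl
  apply EE.ext
  · funext l
    exact (actE_triv l.length e h).1 l (le_refl _)
  · exact eq_zero_of_dvd_pow _ (fun k => (actE_triv k e h).2.1)
  · exact eq_zero_of_dvd_pow _ (fun k => (actE_triv k e h).2.2)

/-! ### Tree automorphisms -/

theorem actE_length (e : EE) (w : List Xt) : (actE e w).length = w.length := by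
  induction w generalizing e with
  | nil => rw [actE_nil]
  | cons x w ih =>
    match x with
    | none => rw [actE_none]
    | some (p, z) => rw [actE_some, List.length_cons, List.length_cons, ih]

theorem actE_prefix (e : EE) (v w : List Xt) : actE e v <+: actE e (v ++ w) := by
  induction v generalizing e with
  | nil => rw [actE_nil]; exact List.nil_prefix
  | cons x v ih =>
    match x with
    | none => rw [actE_none, List.cons_append, actE_none]; exact ⟨w, rfl⟩
    | some (p, z) =>
      rw [actE_some, List.cons_append, actE_some]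
      exact (List.prefix_cons_inj _).mpr (ih _)

theorem treeAut_Act (e : EE) : IsTreeAut (Act e) :=
  ⟨fun w => actE_length e w, fun v w => actE_prefix e v w⟩

theorem treeAut_hat (h : Equiv.Perm (List Xt)) (hh : IsTreeAut h) : IsTreeAut (hat h) := by
  constructor
  · intro w
    match w with
    | [] => rfl
    | (none :: w) =>
      rw [hat_none, List.length_cons, List.length_cons, hh.1]
    | (some x :: w) => rfl
  · intro v w
    match v with
    | [] => exact List.nil_prefix
    | (none :: v) =>
      rw [List.cons_append, hat_none, hat_none]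
      exact (List.prefix_cons_inj _).mpr (hh.2 v w)
    | (some x :: v) =>
      rw [List.cons_append, hat_some, hat_some]
      exact ⟨w, rfl⟩

/-! ### Self-similarity -/

theorem gens_mem (c : Fin 3 ⊕ Fin 6) : gens c ∈ GG := Subgroup.subset_closure ⟨c, rfl⟩

theorem gen6_mem (c : Fin 6) : Act (gen6 c) ∈ GG := gens_mem (.inr c)

theorem tr11 : EE.tr 1 1 = EE.tr 1 0 * EE.tr 0 1 := by
  apply EE.ext
  · rfl
  · rfl
  · rfl

theorem gen3_mem (c : Fin 3) : Act (gen3 c) ∈ GG := by
  fin_cases c
  · change Act (EE.tr 1 1) ∈ GG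
    rw [tr11, map_mul]
    exact mul_mem (gen6_mem 0) (gen6_mem 1)
  · exact gen6_mem 2
  · exact gen6_mem 3

theorem Fb_cons (q : St) (p : Pt) (l : List Pt) :
    Fb q (p :: l) = if p.1 = p.2 then Fb (step q p.2) l else 1 := by
  rw [Fb]

theorem Fa_cons (p : Pt) (l : List Pt) :
    Fa (p :: l) = if p.1 = (0, 0) then Fa l else 1 := by
  rw [Fa]

theorem lamp_shift (F : List Pt → D3) (p : Pt) :
    (EE.lamp F).shift p = EE.lamp (fun l => F (p :: l)) := by
  apply EE.ext
  · rfl
  · exact c1_zero p
  · exact c2_zero p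

theorem lamp_one : EE.lamp (fun _ => 1) = 1 := rfl

theorem Fb_mem (q : St) : Act (EE.lamp (Fb q)) ∈ GG := by
  cases q with
  | start => exact gen6_mem 3
  | run => exact gen6_mem 4
  | fail => exact gen6_mem 5

theorem lampFb_shift (q : St) (p : Pt) : Act ((EE.lamp (Fb q)).shift p) ∈ GG := by
  rw [lamp_shift]
  by_cases h : p.1 = p.2
  · have : (fun l => Fb q (p :: l)) = Fb (step q p.2) := by
      funext l
      rw [Fb_cons, if_pos h]
    rw [this]
    exact Fb_mem _
  · have : (fun l => Fb q (p :: l)) = fun _ => 1 := by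
      funext l
      rw [Fb_cons, if_neg h]
    rw [this, lamp_one, map_one]
    exact one_mem _

theorem gen6_shift (c : Fin 6) (p : Pt) : Act ((gen6 c).shift p) ∈ GG := by
  fin_cases c
  · change Act ((EE.tr 1 0).shift p) ∈ GG
    have h1 : c1 1 p = 0 ∨ c1 1 p = 1 := by
      unfold c1
      have := p.1.1.2
      omega
    rcases h1 with h1 | h1
    · have : (EE.tr 1 0).shift p = 1 := by
        apply EE.ext
        · rfl
        · exact h1
        · exact c2_zero p
      rw [this, map_one]
      exact one_mem _
    · have : (EE.tr 1 0).shift p = EE.tr 1 0 := by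
        apply EE.ext
        · rfl
        · exact h1
        · exact c2_zero p
      rw [this]
      exact gen6_mem 0
  · change Act ((EE.tr 0 1).shift p) ∈ GG
    have h1 : c2 1 p = 0 ∨ c2 1 p = 1 := by
      unfold c2
      have := p.1.2.2
      omega
    rcases h1 with h1 | h1
    · have : (EE.tr 0 1).shift p = 1 := by
        apply EE.ext
        · rfl
        · exact c1_zero p
        · exact h1
      rw [this, map_one]
      exact one_mem _
    · have : (EE.tr 0 1).shift p = EE.tr 0 1 := by
        apply EE.ext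
        · rfl
        · exact c1_zero p
        · exact h1
      rw [this]
      exact gen6_mem 1
  · change Act ((EE.lamp Fa).shift p) ∈ GG
    rw [lamp_shift]
    by_cases h : p.1 = (0, 0)
    · have : (fun l => Fa (p :: l)) = Fa := by
        funext l
        rw [Fa_cons, if_pos h]
      rw [this]
      exact gen6_mem 2
    · have : (fun l => Fa (p :: l)) = fun _ => 1 := by
        funext l
        rw [Fa_cons, if_neg h]
      rw [this, lamp_one, map_one]
      exact one_mem _
  · exact lampFb_shift .start p
  · exact lampFb_shift .run p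
  · exact lampFb_shift .fail p

theorem gens_section (c : Fin 3 ⊕ Fin 6) (x : Xt) :
    ∃ y, ∃ h ∈ GG, ∀ w, gens c (x :: w) = y :: h w := by
  cases c with
  | inl c =>
    match x with
    | none => exact ⟨none, Act (gen3 c), gen3_mem c, fun w => hat_none _ w⟩
    | some x => exact ⟨some x, 1, one_mem _, fun w => hat_some _ x w⟩
  | inr c =>
    match x with
    | none => exact ⟨none, 1, one_mem _, fun w => actE_none (gen6 c) w⟩
    | some (p, z) =>
      exact ⟨_, Act ((gen6 c).shift p), gen6_shift c p, fun w => actE_some _ p z w⟩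

theorem GG_selfSimilar : IsSelfSimilar GG := by
  let eq9 : Fin 9 ≃ Fin 3 ⊕ Fin 6 := (finSumFinEquiv (m := 3) (n := 6)).symm
  refine ⟨9, fun i => gens (eq9 i), ?_, ?_, ?_⟩
  · intro i
    change IsTreeAut (gens (eq9 i))
    cases eq9 i with
    | inl c => exact treeAut_hat _ (treeAut_Act _)
    | inr c => exact treeAut_Act _
  · have : Set.range (fun i => gens (eq9 i)) = Set.range gens := by
      ext g
      constructor
      · rintro ⟨i, rfl⟩
        exact ⟨eq9 i, rfl⟩
      · rintro ⟨c, rfl⟩
        exact ⟨eq9.symm c, by simp⟩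
    rw [this]
    rfl
  · intro i x
    exact gens_section (eq9 i) x

end Pool.Agent.MP_374aea_al
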