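import Pool.Agent.Work.MP_374aea_al.FinA
import Pool.Agent.Work.MP_374aea_al.A1
import Pool.Agent.Work.MP_374aea_al.A2
import Pool.Agent.Work.MP_374aea_al.B
import Pool.Agent.Work.MP_374aea_al.C
import Pool.Agent.Work.MP_374aea_al.D1

set_option autoImplicit false

namespace Pool.Agent.MP_374aea_al

open scoped commutatorElement

/-! ### From words in the nine generators to the matrices -/

/-- Evaluation of words in the nine generators. -/
def ev9 : FreeGroup (Fin 3 ⊕ Fin 6) →* Equiv.Perm (List Xt) := FreeGroup.lift gens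

/-- The projection to words in the hatted generators. -/
def pr3 : FreeGroup (Fin 3 ⊕ Fin 6) →* FreeGroup (Fin 3) :=
  FreeGroup.lift (Sum.elim FreeGroup.of (fun _ => 1))

theorem ev9_none (w : FreeGroup (Fin 3 ⊕ Fin 6)) :
    ∀ u : List Xt, ev9 w (none :: u) = none :: Act (kap (pr3 w)) u := by
  induction w using FreeGroup.induction_on with
  | C1 => intro u; simp
  | of c =>
    intro u
    unfold ev9 pr3 kap
    rw [FreeGroup.lift_apply_of, FreeGroup.lift_apply_of]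
    cases c with
    | inl c =>
      rw [Sum.elim_inl, FreeGroup.lift_apply_of]
      rfl
    | inr c =>
      rw [Sum.elim_inr, map_one, map_one]
      rfl
  | inv_of c ih =>
    intro u
    rw [map_inv, map_inv, map_inv, map_inv]
    apply (ev9 (FreeGroup.of c)).injective
    rw [ih]
    change ev9 (FreeGroup.of c) ((ev9 (FreeGroup.of c)).symm _) = _
    rw [Equiv.apply_symm_apply]
    change _ = none :: Act (kap (pr3 (FreeGroup.of c))) ((Act (kap (pr3 (FreeGroup.of c)))).symm u)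
    rw [Equiv.apply_symm_apply]
  | mul x y hx hy =>
    intro u
    rw [map_mul, map_mul, map_mul, map_mul, Equiv.Perm.mul_apply, hy, hx, Equiv.Perm.mul_apply]

theorem kap_of_ev9 (w : FreeGroup (Fin 3 ⊕ Fin 6)) (hw : ev9 w = 1) : kap (pr3 w) = 1 := by
  apply Act_inj
  rw [map_one]
  ext1 u
  have := ev9_none w u
  rw [hw] at this
  exact (List.cons.inj this).2.symm

/-- The matrix of a word in the nine generators. -/
noncomputable def rho9 : FreeGroup (Fin 3 ⊕ Fin 6) →* UT ℤ := rho3.comp pr3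

/-- The shape of the matrices of relations. -/
def Ctl (x : UT ℤ) : Prop := x.s = 0 ∧ x.A = 0 ∧ x.B = 0 ∧ ∀ j : ℤ, x.C.coeff j ≠ 0 → -j ∈ RR

theorem ctl_of_ev9 (w : FreeGroup (Fin 3 ⊕ Fin 6)) (hw : ev9 w = 1) : Ctl (rho9 w) :=
  rep (pr3 w) (kap_of_ev9 w hw)

/-- The central matrices with coefficient zero at `j`. -/
def Z0 {Γ : Type} [AddCommGroup Γ] (j : Γ) : Subgroup (UT Γ) where
  carrier := {x | x.s = 0 ∧ x.A = 0 ∧ x.B = 0 ∧ x.C.coeff j = 0}
  one_mem' := ⟨rfl, rfl, rfl, rfl⟩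
  mul_mem' := by
    rintro x y ⟨h1, h2, h3, h4⟩ ⟨k1, k2, k3, k4⟩
    refine ⟨?_, ?_, ?_, ?_⟩
    · rw [UT.mul_s, h1, k1, add_zero]
    · rw [UT.mul_A, h2, k2, zero_mul, add_zero]
    · rw [UT.mul_B, h3, k3, mul_zero, add_zero]
    · rw [UT.mul_C, h2, zero_mul, add_zero, AddMonoidAlgebra.coeff_add, Finsupp.add_apply, h4, k4,
        add_zero]
  inv_mem' := by
    rintro x ⟨h1, h2, h3, h4⟩
    refine ⟨?_, ?_, ?_, ?_⟩
    · rw [UT.inv_s, h1, neg_zero]
    · rw [UT.inv_A, h2, zero_mul, neg_zero]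
    · rw [UT.inv_B, h3, mul_zero, neg_zero]
    · rw [UT.inv_C, h2, zero_mul, zero_mul, add_zero, AddMonoidAlgebra.coeff_neg,
        Finsupp.neg_apply, h4, neg_zero]

theorem central_comm {Γ : Type} [AddCommGroup Γ] (x : UT Γ) (h1 : x.s = 0) (h2 : x.A = 0)
    (h3 : x.B = 0) (y : UT Γ) : x * y = y * x := by
  apply UT.ext
  · rw [UT.mul_s, UT.mul_s, add_comm]
  · rw [UT.mul_A, UT.mul_A, h1, h2, T_zero]; ring
  · rw [UT.mul_B, UT.mul_B, h1, h3, T_zero]; ring
  · rw [UT.mul_C, UT.mul_C, h2, h3]; ring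

instance Z0_normal {Γ : Type} [AddCommGroup Γ] (j : Γ) : (Z0 j).Normal where
  conj_mem x hx y := by
    have h := central_comm x hx.1 hx.2.1 hx.2.2.1 y
    rw [← h, mul_assoc, mul_inv_cancel, mul_one]
    exact hx

theorem mapDomain_coeff_zero {m : ℕ} (p : AddMonoidAlgebra (ZMod 2) ℤ) (j0 : ZMod m)
    (h : ∀ j : ℤ, p.coeff j ≠ 0 → (j : ZMod m) ≠ j0) :
    (AddMonoidAlgebra.mapDomainRingHom (ZMod 2) (Int.castAddHom (ZMod m)) p).coeff j0 = 0 := by
  classical
  by_contra hne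
  have h1 : j0 ∈ (Finsupp.mapDomain (Int.castAddHom (ZMod m)) p.coeff).support :=
    Finsupp.mem_support_iff.mpr hne
  have h2 := Finsupp.mapDomain_support h1
  rw [Finset.mem_image] at h2
  obtain ⟨j, hj, hj'⟩ := h2
  exact h j (Finsupp.mem_support_iff.mp hj) hj'

theorem comm_central {H : Type} [Group H] (z1 z2 z3 a t b : H) (h1 : ∀ y, z1 * y = y * z1)
    (h2 : ∀ y, z2 * y = y * z2) (h3 : ∀ y, z3 * y = y * z3) (r : ℤ) :
    ⁅z1 * a, (z2 * t) ^ (-r) * (z3 * b) * (z2 * t) ^ r⁆ = ⁅a, t ^ (-r) * b * t ^ r⁆ := by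
  have e1 : (z2 * t) ^ r = z2 ^ r * t ^ r := (show Commute z2 t from h2 t).mul_zpow r
  have e2 : (z2 * t) ^ (-r) = z2 ^ (-r) * t ^ (-r) := (show Commute z2 t from h2 t).mul_zpow (-r)
  have c2 : ∀ y, z2 ^ r * y = y * z2 ^ r := fun y => (show Commute z2 y from h2 y).zpow_left r
  have e3 : (z2 * t) ^ (-r) * (z3 * b) * (z2 * t) ^ r = z3 * (t ^ (-r) * b * t ^ r) := by
    rw [e1, e2]
    calc z2 ^ (-r) * t ^ (-r) * (z3 * b) * (z2 ^ r * t ^ r)
        = z2 ^ (-r) * ((t ^ (-r) * (z3 * b)) * z2 ^ r) * t ^ r := by simp only [mul_assoc]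
      _ = z2 ^ (-r) * (z2 ^ r * (t ^ (-r) * (z3 * b))) * t ^ r := by rw [c2]
      _ = t ^ (-r) * z3 * b * t ^ r := by
        rw [← mul_assoc (z2 ^ (-r)), ← zpow_add, neg_add_cancel, zpow_zero, one_mul]
        simp only [mul_assoc]
      _ = z3 * t ^ (-r) * b * t ^ r := by rw [h3]
      _ = _ := by simp only [mul_assoc]
  rw [e3]
  set b' := t ^ (-r) * b * t ^ r
  rw [commutatorElement_def, commutatorElement_def]
  have i1 : ∀ y, z1⁻¹ * y = y * z1⁻¹ := fun y => (show Commute z1 y from h1 y).inv_left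
  have i3 : ∀ y, z3⁻¹ * y = y * z3⁻¹ := fun y => (show Commute z3 y from h3 y).inv_left
  calc z1 * a * (z3 * b') * (z1 * a)⁻¹ * (z3 * b')⁻¹
      = z1 * (a * (z3 * b') * a⁻¹ * z1⁻¹) * (b'⁻¹ * z3⁻¹) := by
        rw [mul_inv_rev, mul_inv_rev]; simp only [mul_assoc]
    _ = z1 * (z1⁻¹ * (a * (z3 * b') * a⁻¹)) * (b'⁻¹ * z3⁻¹) := by rw [i1]
    _ = a * z3 * b' * a⁻¹ * (b'⁻¹ * z3⁻¹) := by rw [mul_inv_cancel_left]; simp only [mul_assoc]
    _ = (z3 * a) * b' * a⁻¹ * (z3⁻¹ * b'⁻¹) := by rw [h3, i3]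
    _ = z3 * (a * b' * a⁻¹ * z3⁻¹) * b'⁻¹ := by simp only [mul_assoc]
    _ = z3 * (z3⁻¹ * (a * b' * a⁻¹)) * b'⁻¹ := by rw [i3]
    _ = _ := by rw [mul_inv_cancel_left]

theorem gt_zpow (r : ℤ) : gt ^ r = ⟨r, 0, 0, 0⟩ := by
  have hom : ∀ r s : ℤ, (⟨r, 0, 0, 0⟩ : UT ℤ) * ⟨s, 0, 0, 0⟩ = ⟨r + s, 0, 0, 0⟩ := by
    intro r s
    apply UT.ext
    · rfl
    · rw [UT.mul_A]; simp
    · rw [UT.mul_B]; simp
    · rw [UT.mul_C]; simp
  let f : Multiplicative ℤ →* UT ℤ :=
    { toFun := fun r => ⟨r.toAdd, 0, 0, 0⟩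
      map_one' := rfl
      map_mul' := fun r s => (hom r.toAdd s.toAdd).symm }
  have h1 : f (Multiplicative.ofAdd 1 ^ r) = f (Multiplicative.ofAdd 1) ^ r := map_zpow f _ _
  have h2 : Multiplicative.ofAdd (1 : ℤ) ^ r = Multiplicative.ofAdd r := by
    rw [← ofAdd_zsmul]; simp
  rw [h2] at h1
  exact h1.symm

theorem comm_value (r : ℤ) : ⁅ga, gt ^ (-r) * gb * gt ^ r⁆ = ⟨0, 0, 0, T (-r)⟩ := by
  have e : gt ^ (-r) * gb * gt ^ r = ⟨0, 0, T (-r), 0⟩ := by
    rw [gt_zpow, gt_zpow]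
    unfold gb
    apply UT.ext
    · rw [UT.mul_s, UT.mul_s]; simp
    · rw [UT.mul_A, UT.mul_A]; simp
    · rw [UT.mul_B, UT.mul_B]; simp
    · rw [UT.mul_C, UT.mul_C]; simp
  rw [e, commutatorElement_def, mul_inv_eq_iff_eq_mul, mul_inv_eq_iff_eq_mul]
  unfold ga
  apply UT.ext
  · simp [UT.mul_s]
  · simp only [UT.mul_A]; simp [T_zero]
  · simp only [UT.mul_B, UT.mul_s]; simp [T_zero]
  · simp only [UT.mul_C, UT.mul_A]; simp

theorem tr_zpow (r : ℤ) : (EE.tr 1 1) ^ r = EE.tr r r := by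
  let f : Multiplicative ℤ →* EE :=
    { toFun := fun r => EE.tr r.toAdd r.toAdd
      map_one' := rfl
      map_mul' := fun r s => rfl }
  have h1 : f (Multiplicative.ofAdd 1 ^ r) = f (Multiplicative.ofAdd 1) ^ r := map_zpow f _ _
  have h2 : Multiplicative.ofAdd (1 : ℤ) ^ r = Multiplicative.ofAdd r := by
    rw [← ofAdd_zsmul]; simp
  rw [h2] at h1
  exact h1.symm

theorem Fa_eq_one_or (l : List Pt) : Fa l = 1 ∨ AllZero l := by
  induction l with
  | nil => right; intro p hp; simp at hp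
  | cons p l ih =>
    by_cases hp : p.1 = (0, 0)
    · rcases ih with ih | ih
      · left; unfold Fa; rw [if_pos hp, ih]
      · right
        intro q hq
        rcases List.mem_cons.mp hq with rfl | hq
        · exact hp
        · exact ih q hq
    · left; unfold Fa; rw [if_neg hp]

theorem EE_rel (r : ℤ) (hr : r ∈ RR) :
    ⁅EE.lamp Fa, (EE.tr 1 1) ^ (-r) * EE.lamp (Fb .start) * (EE.tr 1 1) ^ r⁆ = 1 := by
  rw [tr_zpow, tr_zpow, commutatorElement_eq_one_iff_mul_comm]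
  have e : EE.tr (-r) (-r) * EE.lamp (Fb .start) * EE.tr r r =
      EE.lamp (fun l => Fb .start (addP r r l)) := by
    apply EE.ext
    · funext l
      rw [EE.mul_F, EE.mul_F]
      change 1 * _ * 1 = _
      rw [mul_one, one_mul]
      rfl
    · rw [EE.mul_i, EE.mul_i]; change -r + 0 + r = 0; ring
    · rw [EE.mul_j, EE.mul_j]; change -r + 0 + r = 0; ring
  rw [e]
  apply EE.ext
  · funext l
    rw [EE.mul_F, EE.mul_F]
    change Fa (addP 0 0 l) * Fb .start (addP r r l) =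
      Fb .start (addP r r (addP 0 0 l)) * Fa l
    rw [addP_zero]
    rcases Fa_eq_one_or l with h | h
    · rw [h, one_mul, mul_one]
    · rw [hr l h, one_mul, mul_one]
  · rfl
  · rfl

/-- The final contradiction. -/
theorem no_LPres : ¬ HasFiniteLPresentation GG := by
  classical
  rintro ⟨n, Q, Φ, R, ⟨e⟩⟩
  set N : Subgroup (FreeGroup (Fin n)) := Subgroup.normalClosure (LRel Q Φ R) with hN
  let π : FreeGroup (Fin n) →* GG := e.symm.toMonoidHom.comp (QuotientGroup.mk' N)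
  have hπsurj : Function.Surjective π :=
    e.symm.surjective.comp (QuotientGroup.mk'_surjective N)
  have hπker : ∀ x, π x = 1 ↔ x ∈ N := by
    intro x
    constructor
    · intro h
      have h1 : e.symm (QuotientGroup.mk' N x) = 1 := h
      have h2 : QuotientGroup.mk' N x = 1 := by
        apply e.symm.injective
        rw [h1, map_one]
      exact (QuotientGroup.eq_one_iff x).mp h2
    · intro h
      have h2 : QuotientGroup.mk' N x = 1 := (QuotientGroup.eq_one_iff x).mpr h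
      change e.symm (QuotientGroup.mk' N x) = 1
      rw [h2, map_one]
  -- lifting of the generators
  have hrange : ∀ g ∈ GG, ∃ w, ev9 w = g := by
    intro g hg
    have h1 : (ev9.range : Subgroup _) = GG := FreeGroup.range_lift_eq_closure
    rw [← h1] at hg
    exact hg
  choose wd hwd using fun c : Fin n => hrange (π (FreeGroup.of c)).1 (π (FreeGroup.of c)).2
  let W : FreeGroup (Fin n) →* FreeGroup (Fin 3 ⊕ Fin 6) := FreeGroup.lift wd
  have hW : ∀ x, ev9 (W x) = (π x : Equiv.Perm (List Xt)) := by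
    intro x
    have h1 : ev9.comp W = GG.subtype.comp π := by
      apply FreeGroup.ext_hom
      intro c
      change ev9 (FreeGroup.lift wd (FreeGroup.of c)) = _
      rw [FreeGroup.lift_apply_of, hwd]
      rfl
    exact DFunLike.congr_fun h1 x
  let ρ : FreeGroup (Fin n) →* UT ℤ := rho9.comp W
  have K2 : ∀ x ∈ N, Ctl (ρ x) := by
    intro x hx
    apply ctl_of_ev9
    rw [hW, (hπker x).mpr hx]
    rfl
  have K3 : ∀ r ∈ RR, ∃ x ∈ N, ρ x = ⟨0, 0, 0, T (-r)⟩ := by
    intro r hr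
    have hgen : ∀ c, ∃ y : FreeGroup (Fin n), ((π y : Equiv.Perm (List Xt)) = gens (.inl c)) ∧
        ∃ z : UT ℤ, (∀ u, z * u = u * z) ∧ ρ y = z * rho9 (FreeGroup.of (.inl c)) := by
      intro c
      obtain ⟨y, hy⟩ := hπsurj ⟨gens (.inl c), Subgroup.subset_closure ⟨.inl c, rfl⟩⟩
      have hy' : (π y : Equiv.Perm (List Xt)) = gens (.inl c) := by rw [hy]
      refine ⟨y, hy', ρ y * (rho9 (FreeGroup.of (.inl c)))⁻¹, ?_, by group⟩
      have h1 : ev9 (W y * (FreeGroup.of (.inl c))⁻¹) = 1 := by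
        rw [map_mul, map_inv, hW, hy']
        unfold ev9
        rw [FreeGroup.lift_apply_of, mul_inv_cancel]
      have h2 := ctl_of_ev9 _ h1
      rw [map_mul, map_inv] at h2
      exact central_comm _ h2.1 h2.2.1 h2.2.2.1
    obtain ⟨ya, hya, za, hza, hρa⟩ := hgen 1
    obtain ⟨yt, hyt, zt, hzt, hρt⟩ := hgen 0
    obtain ⟨yb, hyb, zb, hzb, hρb⟩ := hgen 2
    refine ⟨⁅ya, yt ^ (-r) * yb * yt ^ r⁆, ?_, ?_⟩
    · rw [← hπker]
      apply Subtype.ext
      rw [map_commutatorElement, map_mul, map_mul, map_zpow, map_zpow]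
      have h1 : ((⁅π ya, π yt ^ (-r) * π yb * π yt ^ r⁆ : GG) : Equiv.Perm (List Xt)) =
          ⁅gens (.inl 1), gens (.inl 0) ^ (-r) * gens (.inl 2) * gens (.inl 0) ^ r⁆ := by
        rw [← hya, ← hyt, ← hyb]
        rfl
      rw [h1]
      have h2 : ⁅gens (.inl 1), gens (.inl 0) ^ (-r) * gens (.inl 2) * gens (.inl 0) ^ r⁆ =
          (hat.comp Act) ⁅EE.lamp Fa, (EE.tr 1 1) ^ (-r) * EE.lamp (Fb .start) * (EE.tr 1 1) ^ r⁆ := by
        rw [map_commutatorElement, map_mul, map_mul, map_zpow, map_zpow]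
        rfl
      rw [h2, EE_rel r hr, map_one]
      rfl
    · rw [map_commutatorElement, map_mul, map_mul, map_zpow, map_zpow, hρa, hρt, hρb,
        comm_central za zt zb _ _ _ hza hzt hzb]
      have g1 : rho9 (FreeGroup.of (.inl 1)) = ga := by
        change rho3 (pr3 (FreeGroup.of (.inl 1))) = ga
        unfold pr3 rho3
        rw [FreeGroup.lift_apply_of, Sum.elim_inl, FreeGroup.lift_apply_of]
        rfl
      have g0 : rho9 (FreeGroup.of (.inl 0)) = gt := by
        change rho3 (pr3 (FreeGroup.of (.inl 0))) = gt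
        unfold pr3 rho3
        rw [FreeGroup.lift_apply_of, Sum.elim_inl, FreeGroup.lift_apply_of]
        rfl
      have g2 : rho9 (FreeGroup.of (.inl 2)) = gb := by
        change rho3 (pr3 (FreeGroup.of (.inl 2))) = gb
        unfold pr3 rho3
        rw [FreeGroup.lift_apply_of, Sum.elim_inl, FreeGroup.lift_apply_of]
        rfl
      rw [g1, g0, g2, comm_value]
  -- bounds
  obtain ⟨d, hd⟩ := exists_bound_hom ρ
  obtain ⟨c, hc0, hc⟩ := exists_bound_ends Φ
  set b0 : ℕ := ∑ x ∈ Q ∪ R, x.norm with hb0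
  have hb : ∀ x ∈ Q ∪ R, x.norm ≤ b0 := by
    intro x hx
    exact Finset.single_le_sum (f := fun x : FreeGroup (Fin n) => x.norm)
      (fun i _ => Nat.zero_le _) hx
  obtain ⟨m, N', hm, hne, hbig⟩ := arith n (d * b0) c
  have : NeZero m := ⟨by omega⟩
  set D := 1 + n + m ^ n * (n + 1) ^ 2 with hD
  let f : ℤ →+ ZMod m := Int.castAddHom (ZMod m)
  let ρm : FreeGroup (Fin n) →* UT (ZMod m) := (UT.map f).comp ρ
  let j0 : ZMod m := -((kk N' : ℕ) : ZMod m)
  have hcen : ∀ x ∈ N, (ρm x).s = 0 ∧ (ρm x).A = 0 ∧ (ρm x).B = 0 := by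
    intro x hx
    obtain ⟨h1, h2, h3, _⟩ := K2 x hx
    refine ⟨?_, ?_, ?_⟩
    · change f (ρ x).s = 0
      rw [h1, map_zero]
    · change AddMonoidAlgebra.mapDomainRingHom (ZMod 2) f (ρ x).A = 0
      rw [h2, map_zero]
    · change AddMonoidAlgebra.mapDomainRingHom (ZMod 2) f (ρ x).B = 0
      rw [h3, map_zero]
  have hsmall : ∀ x ∈ N, x.norm ≤ b0 * c ^ D → (ρm x).C.coeff j0 = 0 := by
    intro x hx hnorm
    obtain ⟨_, _, _, h4⟩ := K2 x hx
    apply mapDomain_coeff_zero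
    intro j hj
    have h5 := h4 j hj
    rw [RR_iff] at h5
    obtain ⟨K, hK⟩ := h5
    have h6 : |j| ≤ ((d * x.norm : ℕ) : ℤ) := (hd x).2.2.2 j hj
    have h7 : kk K < kk N' := by
      have h8 : d * x.norm ≤ d * b0 * c ^ D := by
        calc d * x.norm ≤ d * (b0 * c ^ D) := Nat.mul_le_mul_left _ hnorm
          _ = _ := by ring
      have h9 : |j| = (kk K : ℤ) := by
        rw [show j = -(kk K : ℤ) by omega, abs_neg, Nat.abs_cast]
      have : (kk K : ℤ) ≤ ((d * x.norm : ℕ) : ℤ) := by rw [← h9]; exact h6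
      have : kk K ≤ d * x.norm := by exact_mod_cast this
      omega
    have h8 : K < N' := by
      by_contra hcon
      have : kk N' ≤ kk K := by
        unfold kk
        apply Finset.sum_le_sum_of_subset
        intro i hi
        rw [Finset.mem_range] at hi ⊢
        omega
      omega
    have h9 := hne K h8
    intro hcon
    apply h9
    have h10 : (j : ZMod m) = -((kk K : ℕ) : ZMod m) := by
      rw [show j = -(kk K : ℤ) by omega]
      push_cast
      rfl
    rw [h10] at hcon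
    exact neg_injective hcon
  have hLRel : ∀ x ∈ LRel Q Φ R, x ∈ N := fun x hx => Subgroup.subset_normalClosure hx
  have hchain := chain m n ρm (Φ : Set (Monoid.End (FreeGroup (Fin n)))) (R : Set (FreeGroup (Fin n))) j0
    (by
      intro φ hφ r hr
      exact hcen _ (hLRel _ (Or.inr ⟨φ, hφ, r, hr, rfl⟩)))
    (by
      intro L hL hlen r hr
      have hLmem : L.prod ∈ Submonoid.closure (Φ : Set (Monoid.End (FreeGroup (Fin n)))) :=
        Submonoid.list_prod_mem _ (fun φ hφ => Submonoid.subset_closure (hL φ hφ))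
      apply hsmall _ (hLRel _ (Or.inr ⟨L.prod, hLmem, r, hr, rfl⟩))
      calc (L.prod r).norm ≤ c ^ L.length * r.norm := norm_prod_le Φ c hc L hL r
        _ ≤ c ^ D * b0 := Nat.mul_le_mul (Nat.pow_le_pow_right hc0 hlen)
            (hb r (Finset.mem_union_right _ hr))
        _ = _ := by ring)
  have hNZ : N ≤ (Z0 j0).comap ρm := by
    apply Subgroup.normalClosure_le_normal
    intro x hx
    change ρm x ∈ Z0 j0
    obtain ⟨h1, h2, h3⟩ := hcen x (hLRel x hx)
    refine ⟨h1, h2, h3, ?_⟩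
    rcases hx with hx | ⟨φ, hφ, r, hr, rfl⟩
    · apply hsmall x (hLRel x (Or.inl hx))
      calc x.norm ≤ b0 := hb x (Finset.mem_union_left _ hx)
        _ ≤ b0 * c ^ D := Nat.le_mul_of_pos_right _ (pow_pos hc0 _)
    · exact hchain φ hφ r hr
  obtain ⟨x, hx, hρx⟩ := K3 (kk N' : ℤ) ((RR_iff _).mpr ⟨N', rfl⟩)
  have h1 : (ρm x).C.coeff j0 = 0 := (hNZ hx).2.2.2
  have h2 : (ρm x).C = T j0 := by
    change AddMonoidAlgebra.mapDomainRingHom (ZMod 2) f (ρ x).C = T j0
    rw [hρx]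
    change AddMonoidAlgebra.mapDomainRingHom (ZMod 2) f (AddMonoidAlgebra.single _ 1) = _
    unfold T
    rw [AddMonoidAlgebra.mapDomainRingHom_apply, AddMonoidAlgebra.mapDomain_single]
    congr 1
    change ((-(kk N' : ℤ) : ℤ) : ZMod m) = _
    push_cast
    rfl
  rw [h2] at h1
  unfold T at h1
  rw [AddMonoidAlgebra.coeff_single, Finsupp.single_eq_same] at h1
  exact one_ne_zero h1

end Pool.Agent.MP_374aea_al
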