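import Mathlib

set_option autoImplicit false

namespace Pool.Agent.MP_374aea_al

/-! ### The matrix groups -/

/-- Upper triangular matrices with diagonal entries `1`, `T^s`, `1` over the group algebra of `Γ`
over the field with two elements. -/
@[ext] structure UT (Γ : Type) [AddCommGroup Γ] where
  s : Γ
  A : AddMonoidAlgebra (ZMod 2) Γ
  B : AddMonoidAlgebra (ZMod 2) Γ
  C : AddMonoidAlgebra (ZMod 2) Γ

/-- The monomial with exponent `g`. -/
noncomputable def T {Γ : Type} [AddCommGroup Γ] (g : Γ) : AddMonoidAlgebra (ZMod 2) Γ :=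
  AddMonoidAlgebra.single g 1

theorem T_zero {Γ : Type} [AddCommGroup Γ] : T (0 : Γ) = 1 := rfl

theorem T_add {Γ : Type} [AddCommGroup Γ] (g h : Γ) : T (g + h) = T g * T h := by
  unfold T
  rw [AddMonoidAlgebra.single_mul_single, one_mul]

theorem T_neg_mul {Γ : Type} [AddCommGroup Γ] (g : Γ) : T (-g) * T g = 1 := by
  rw [← T_add, neg_add_cancel, T_zero]

namespace UT

variable {Γ : Type} [AddCommGroup Γ]

noncomputable instance : Mul (UT Γ) :=
  ⟨fun x y => ⟨x.s + y.s, y.A + x.A * T y.s, x.B + T x.s * y.B, x.C + y.C + x.A * y.B⟩⟩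

noncomputable instance : One (UT Γ) := ⟨⟨0, 0, 0, 0⟩⟩

noncomputable instance : Inv (UT Γ) :=
  ⟨fun x => ⟨-x.s, -(x.A * T (-x.s)), -(T (-x.s) * x.B), -x.C + x.A * T (-x.s) * x.B⟩⟩

theorem mul_s (x y : UT Γ) : (x * y).s = x.s + y.s := rfl
theorem mul_A (x y : UT Γ) : (x * y).A = y.A + x.A * T y.s := rfl
theorem mul_B (x y : UT Γ) : (x * y).B = x.B + T x.s * y.B := rfl
theorem mul_C (x y : UT Γ) : (x * y).C = x.C + y.C + x.A * y.B := rfl
theorem one_s : (1 : UT Γ).s = 0 := rfl
theorem one_A : (1 : UT Γ).A = 0 := rfl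
theorem one_B : (1 : UT Γ).B = 0 := rfl
theorem one_C : (1 : UT Γ).C = 0 := rfl
theorem inv_s (x : UT Γ) : (x⁻¹).s = -x.s := rfl
theorem inv_A (x : UT Γ) : (x⁻¹).A = -(x.A * T (-x.s)) := rfl
theorem inv_B (x : UT Γ) : (x⁻¹).B = -(T (-x.s) * x.B) := rfl
theorem inv_C (x : UT Γ) : (x⁻¹).C = -x.C + x.A * T (-x.s) * x.B := rfl

noncomputable instance : Group (UT Γ) where
  mul_assoc x y z := by
    apply UT.ext
    · simp only [mul_s, add_assoc]
    · simp only [mul_A, mul_s, T_add]; ring
    · simp only [mul_B, mul_s, T_add]; ring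
    · simp only [mul_C, mul_A, mul_B]; ring
  one_mul x := by
    apply UT.ext
    · simp only [mul_s, one_s, zero_add]
    · simp only [mul_A, one_A, zero_mul, add_zero]
    · simp only [mul_B, one_B, one_s, T_zero, zero_add, one_mul]
    · simp only [mul_C, one_C, one_A, zero_mul, add_zero, zero_add]
  mul_one x := by
    apply UT.ext
    · simp only [mul_s, one_s, add_zero]
    · simp only [mul_A, one_A, one_s, T_zero, mul_one, zero_add]
    · simp only [mul_B, one_B, mul_zero, add_zero]
    · simp only [mul_C, one_C, one_B, mul_zero, add_zero]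
  inv_mul_cancel x := by
    apply UT.ext
    · simp only [mul_s, inv_s, one_s, neg_add_cancel]
    · simp only [mul_A, inv_A, one_A, neg_mul, mul_assoc, T_neg_mul, mul_one, add_neg_cancel]
    · simp only [mul_B, inv_B, inv_s, one_B]; ring
    · simp only [mul_C, inv_C, inv_A, one_C]; ring

/-- Functoriality. -/
noncomputable def map {Δ : Type} [AddCommGroup Δ] (f : Γ →+ Δ) : UT Γ →* UT Δ where
  toFun x := ⟨f x.s, AddMonoidAlgebra.mapDomainRingHom (ZMod 2) f x.A,
    AddMonoidAlgebra.mapDomainRingHom (ZMod 2) f x.B,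
    AddMonoidAlgebra.mapDomainRingHom (ZMod 2) f x.C⟩
  map_one' := by
    apply UT.ext
    · simp only [one_s, map_zero]
    · simp only [one_A, map_zero]
    · simp only [one_B, map_zero]
    · simp only [one_C, map_zero]
  map_mul' x y := by
    have hT : ∀ g : Γ, AddMonoidAlgebra.mapDomainRingHom (ZMod 2) f (T g) = T (f g) := by
      intro g
      unfold T
      simp
    apply UT.ext
    · simp only [mul_s, map_add]
    · simp only [mul_A, map_add, map_mul, hT]
    · simp only [mul_B, map_add, map_mul, hT]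
    · simp only [mul_C, map_add, map_mul]

end UT

/-- The three standard generators over the integers. -/
noncomputable def gt : UT ℤ := ⟨1, 0, 0, 0⟩
noncomputable def ga : UT ℤ := ⟨0, 1, 0, 0⟩
noncomputable def gb : UT ℤ := ⟨0, 0, 1, 0⟩

/-! ### The lamp group -/

/-- Unitriangular 3 by 3 matrices over the field with two elements. -/
@[ext] structure D3 where
  a : ZMod 2
  b : ZMod 2
  c : ZMod 2
  deriving DecidableEq, Fintype

namespace D3

instance : Mul D3 := ⟨fun x y => ⟨x.a + y.a, x.b + y.b, x.c + y.c + x.a * y.b⟩⟩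
instance : One D3 := ⟨⟨0, 0, 0⟩⟩
instance : Inv D3 := ⟨fun x => ⟨-x.a, -x.b, -x.c + x.a * x.b⟩⟩

theorem mul_a (x y : D3) : (x * y).a = x.a + y.a := rfl
theorem mul_b (x y : D3) : (x * y).b = x.b + y.b := rfl
theorem mul_c (x y : D3) : (x * y).c = x.c + y.c + x.a * y.b := rfl
theorem one_a : (1 : D3).a = 0 := rfl
theorem one_b : (1 : D3).b = 0 := rfl
theorem one_c : (1 : D3).c = 0 := rfl

instance : Group D3 where
  mul_assoc x y z := by
    apply D3.ext
    · simp only [mul_a, add_assoc]
    · simp only [mul_b, add_assoc]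
    · simp only [mul_c, mul_a, mul_b]; ring
  one_mul x := by
    apply D3.ext
    · simp only [mul_a, one_a, zero_add]
    · simp only [mul_b, one_b, zero_add]
    · simp only [mul_c, one_c, one_a, zero_mul, add_zero, zero_add]
  mul_one x := by
    apply D3.ext
    · simp only [mul_a, one_a, add_zero]
    · simp only [mul_b, one_b, add_zero]
    · simp only [mul_c, one_c, one_b, mul_zero, add_zero]
  inv_mul_cancel x := by
    apply D3.ext
    · change -x.a + x.a = 0
      ring
    · change -x.b + x.b = 0
      ring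
    · change (-x.c + x.a * x.b) + x.c + (-x.a) * x.b = 0
      ring

/-- The lamp generators. -/
def ea : D3 := ⟨1, 0, 0⟩
def eb : D3 := ⟨0, 1, 0⟩

end D3

/-! ### Positions and the odometer action -/

/-- A position letter: a digit pair `v` (bases 2 and 4) and a memory pair `y`. -/
abbrev Pt := (Fin 2 × Fin 4) × (Fin 2 × Fin 4)

/-- Residue modulo 2. -/
def dg2 (x : ℤ) : Fin 2 := ⟨(x % 2).toNat, by omega⟩

/-- Residue modulo 4. -/
def dg4 (x : ℤ) : Fin 4 := ⟨(x % 4).toNat, by omega⟩

theorem dg2_val (x : ℤ) : ((dg2 x : ℕ) : ℤ) = x % 2 := by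
  unfold dg2
  simp only
  omega

theorem dg4_val (x : ℤ) : ((dg4 x : ℕ) : ℤ) = x % 4 := by
  unfold dg4
  simp only
  omega

/-- The first letter of the sum. -/
def addL (i j : ℤ) (p : Pt) : Pt :=
  ((dg2 (((p.1.1 : ℕ) : ℤ) + i), dg4 (((p.1.2 : ℕ) : ℤ) + j)), p.2)

/-- The carry of the first coordinate. -/
def c1 (i : ℤ) (p : Pt) : ℤ := (((p.1.1 : ℕ) : ℤ) + i) / 2

/-- The carry of the second coordinate. -/
def c2 (j : ℤ) (p : Pt) : ℤ := (((p.1.2 : ℕ) : ℤ) + j) / 4

/-- Addition of `(i, j)` to the numbers with digits `v`, least significant digits first. -/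
def addP : ℤ → ℤ → List Pt → List Pt
  | _, _, [] => []
  | i, j, (p :: l) => addL i j p :: addP (c1 i p) (c2 j p) l

theorem addP_nil (i j : ℤ) : addP i j [] = [] := rfl
theorem addP_cons (i j : ℤ) (p : Pt) (l : List Pt) :
    addP i j (p :: l) = addL i j p :: addP (c1 i p) (c2 j p) l := rfl

theorem addL_zero (p : Pt) : addL 0 0 p = p := by
  obtain ⟨⟨v1, v2⟩, y⟩ := p
  unfold addL
  simp only [add_zero]
  congr 2
  · apply Fin.ext
    have h := dg2_val ((v1 : ℕ) : ℤ)
    have := v1.2
    omega
  · apply Fin.ext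
    have h := dg4_val ((v2 : ℕ) : ℤ)
    have := v2.2
    omega

theorem c1_zero (p : Pt) : c1 0 p = 0 := by
  unfold c1
  have := p.1.1.2
  omega

theorem c2_zero (p : Pt) : c2 0 p = 0 := by
  unfold c2
  have := p.1.2.2
  omega

theorem addP_zero (l : List Pt) : addP 0 0 l = l := by
  induction l with
  | nil => rfl
  | cons p l ih => rw [addP_cons, addL_zero, c1_zero, c2_zero, ih]

theorem addL_add (i j i' j' : ℤ) (p : Pt) :
    addL (i + i') (j + j') p = addL i j (addL i' j' p) := by
  unfold addL
  simp only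
  congr 2
  · apply Fin.ext
    have h1 := dg2_val (((p.1.1 : ℕ) : ℤ) + (i + i'))
    have h2 := dg2_val (((dg2 (((p.1.1 : ℕ) : ℤ) + i') : ℕ) : ℤ) + i)
    have h3 := dg2_val (((p.1.1 : ℕ) : ℤ) + i')
    omega
  · apply Fin.ext
    have h1 := dg4_val (((p.1.2 : ℕ) : ℤ) + (j + j'))
    have h2 := dg4_val (((dg4 (((p.1.2 : ℕ) : ℤ) + j') : ℕ) : ℤ) + j)
    have h3 := dg4_val (((p.1.2 : ℕ) : ℤ) + j')
    omega

theorem c1_add (i i' j' : ℤ) (p : Pt) :
    c1 (i + i') p = c1 i (addL i' j' p) + c1 i' p := by
  unfold c1 addL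
  simp only
  have h3 := dg2_val (((p.1.1 : ℕ) : ℤ) + i')
  omega

theorem c2_add (j i' j' : ℤ) (p : Pt) :
    c2 (j + j') p = c2 j (addL i' j' p) + c2 j' p := by
  unfold c2 addL
  simp only
  have h3 := dg4_val (((p.1.2 : ℕ) : ℤ) + j')
  omega

theorem addP_add (i j i' j' : ℤ) (l : List Pt) :
    addP (i + i') (j + j') l = addP i j (addP i' j' l) := by
  induction l generalizing i j i' j' with
  | nil => rfl
  | cons p l ih =>
    rw [addP_cons, addP_cons, addP_cons, addL_add, c1_add i i' j', c2_add j i' j', ih]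

/-- States of the test: start, running, failed. -/
inductive St
  | start
  | run
  | fail
  deriving DecidableEq

instance : Fintype St :=
  ⟨{St.start, St.run, St.fail}, by intro x; cases x <;> simp⟩

/-- Transitions of the test, reading a memory pair. -/
def step : St → Fin 2 × Fin 4 → St
  | .start, y => if y.2 = 0 ∨ y.2 = 2 then .run else .fail
  | .run, y => if y.2 = 0 ∨ (y.2 = 1 ∧ y.1 = 1) then .run else .fail
  | .fail, _ => .fail

/-- The lamp function of the first lamp generator. -/
def Fa : List Pt → D3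
  | [] => D3.ea
  | (p :: l) => if p.1 = (0, 0) then Fa l else 1

/-- The lamp functions of the second type. -/
def Fb : St → List Pt → D3
  | q, [] => if q = .fail then D3.eb else 1
  | q, (p :: l) => if p.1 = p.2 then Fb (step q p.2) l else 1

/-- All digits are zero. -/
def AllZero (l : List Pt) : Prop := ∀ p ∈ l, p.1 = ((0, 0) : Fin 2 × Fin 4)

/-- The set of exponents of the relators. -/
def RR : Set ℤ := {n | ∀ l, AllZero l → Fb .start (addP n n l) = 1}

/-- The sparse sequence. -/
def kk (N : ℕ) : ℕ := ∑ i ∈ Finset.range N, 2 ^ 2 ^ i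

/-! ### The semidirect product -/

/-- A lamp configuration `F` followed by the translation by `(i, j)`. -/
@[ext] structure EE where
  F : List Pt → D3
  i : ℤ
  j : ℤ

namespace EE

instance : Mul EE := ⟨fun x y => ⟨fun l => x.F (addP y.i y.j l) * y.F l, x.i + y.i, x.j + y.j⟩⟩
instance : One EE := ⟨⟨fun _ => 1, 0, 0⟩⟩
instance : Inv EE := ⟨fun x => ⟨fun l => (x.F (addP (-x.i) (-x.j) l))⁻¹, -x.i, -x.j⟩⟩

theorem mul_F (x y : EE) (l : List Pt) : (x * y).F l = x.F (addP y.i y.j l) * y.F l := rfl
theorem mul_i (x y : EE) : (x * y).i = x.i + y.i := rfl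
theorem mul_j (x y : EE) : (x * y).j = x.j + y.j := rfl
theorem one_F (l : List Pt) : (1 : EE).F l = 1 := rfl
theorem one_i : (1 : EE).i = 0 := rfl
theorem one_j : (1 : EE).j = 0 := rfl
theorem inv_F (x : EE) (l : List Pt) : (x⁻¹).F l = (x.F (addP (-x.i) (-x.j) l))⁻¹ := rfl
theorem inv_i (x : EE) : (x⁻¹).i = -x.i := rfl
theorem inv_j (x : EE) : (x⁻¹).j = -x.j := rfl

instance : Group EE where
  mul_assoc x y z := by
    apply EE.ext
    · funext l
      simp only [mul_F, mul_i, mul_j, addP_add, mul_assoc]
    · simp only [mul_i, add_assoc]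
    · simp only [mul_j, add_assoc]
  one_mul x := by
    apply EE.ext
    · funext l
      simp only [mul_F, one_F, one_mul]
    · simp only [mul_i, one_i, zero_add]
    · simp only [mul_j, one_j, zero_add]
  mul_one x := by
    apply EE.ext
    · funext l
      simp only [mul_F, one_F, mul_one, one_i, one_j, addP_zero]
    · simp only [mul_i, one_i, add_zero]
    · simp only [mul_j, one_j, add_zero]
  inv_mul_cancel x := by
    apply EE.ext
    · funext l
      simp only [mul_F, inv_F, one_F, ← addP_add, neg_add_cancel, addP_zero, inv_mul_cancel]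
    · simp only [mul_i, inv_i, one_i, neg_add_cancel]
    · simp only [mul_j, inv_j, one_j, neg_add_cancel]

/-- Pure translations. -/
def tr (i j : ℤ) : EE := ⟨fun _ => 1, i, j⟩

/-- Pure lamp configurations. -/
def lamp (F : List Pt → D3) : EE := ⟨F, 0, 0⟩

/-- The section at a position letter. -/
def shift (e : EE) (p : Pt) : EE := ⟨fun l => e.F (p :: l), c1 e.i p, c2 e.j p⟩

theorem shift_mul (e e' : EE) (p : Pt) :
    (e * e').shift p = e.shift (addL e'.i e'.j p) * e'.shift p := by
  apply EE.ext
  · funext l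
    rfl
  · exact c1_add _ _ _ _
  · exact c2_add _ _ _ _

theorem shift_one (p : Pt) : (1 : EE).shift p = 1 := by
  apply EE.ext
  · rfl
  · exact c1_zero p
  · exact c2_zero p

end EE

/-! ### The action on the tree -/

/-- The fibre over a position. -/
abbrev Zt := ZMod 2 × ZMod 2

/-- Letters: the star `none`, or a position letter with a point of the fibre. -/
abbrev Xt := Option (Pt × Zt)

instance : MulAction D3 Zt where
  smul g z := (z.1 + g.a * z.2 + g.c, z.2 + g.b)
  one_smul z := by
    change (z.1 + 0 * z.2 + 0, z.2 + 0) = z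
    ext <;> simp
  mul_smul g h z := by
    change (z.1 + (g.a + h.a) * z.2 + (g.c + h.c + g.a * h.b), z.2 + (g.b + h.b)) =
      ((z.1 + h.a * z.2 + h.c) + g.a * (z.2 + h.b) + g.c, (z.2 + h.b) + g.b)
    ext
    · simp only; ring
    · simp only; ring

theorem D3.smul_def (g : D3) (z : Zt) : g • z = (z.1 + g.a * z.2 + g.c, z.2 + g.b) := rfl

/-- The action of `EE` on words: nothing happens after a star. -/
def actE : EE → List Xt → List Xt
  | _, [] => []
  | _, (none :: w) => none :: w
  | e, (some (p, z) :: w) => some (addL e.i e.j p, e.F [] • z) :: actE (e.shift p) w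

theorem actE_nil (e : EE) : actE e [] = [] := by
  unfold actE; rfl
theorem actE_none (e : EE) (w : List Xt) : actE e (none :: w) = none :: w := by
  unfold actE; rfl
theorem actE_some (e : EE) (p : Pt) (z : Zt) (w : List Xt) :
    actE e (some (p, z) :: w) =
      some (addL e.i e.j p, e.F [] • z) :: actE (e.shift p) w := by
  rw [actE]

theorem actE_one (w : List Xt) : actE 1 w = w := by
  induction w with
  | nil => exact actE_nil _
  | cons x w ih =>
    match x with
    | none => exact actE_none _ _
    | some (p, z) =>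
      rw [actE_some, EE.shift_one, ih, EE.one_i, EE.one_j, addL_zero, EE.one_F, one_smul]

theorem actE_mul (e e' : EE) (w : List Xt) : actE (e * e') w = actE e (actE e' w) := by
  induction w generalizing e e' with
  | nil => rw [actE_nil, actE_nil, actE_nil]
  | cons x w ih =>
    match x with
    | none => rw [actE_none, actE_none, actE_none]
    | some (p, z) =>
      rw [actE_some, actE_some, actE_some, EE.shift_mul, ih, EE.mul_i, EE.mul_j, addL_add,
        EE.mul_F, addP_nil, mul_smul]

instance : MulAction EE (List Xt) where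
  smul e w := actE e w
  one_smul := actE_one
  mul_smul := actE_mul

/-- The action as a homomorphism to permutations. -/
def Act : EE →* Equiv.Perm (List Xt) := MulAction.toPermHom EE (List Xt)

theorem Act_apply (e : EE) (w : List Xt) : Act e w = actE e w := rfl

/-- The map underlying the hat. -/
def hatFun (h : Equiv.Perm (List Xt)) : List Xt → List Xt
  | (none :: w) => none :: h w
  | w => w

/-- `hat h` acts by `h` after an initial star, and trivially elsewhere. -/
def hat : Equiv.Perm (List Xt) →* Equiv.Perm (List Xt) where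
  toFun h :=
    { toFun := hatFun h
      invFun := hatFun h⁻¹
      left_inv := by
        intro w
        match w with
        | [] => rfl
        | (none :: w) =>
          exact congrArg (fun u => (none : Xt) :: u) (h.symm_apply_apply w)
        | (some x :: w) => rfl
      right_inv := by
        intro w
        match w with
        | [] => rfl
        | (none :: w) =>
          exact congrArg (fun u => (none : Xt) :: u) (h.apply_symm_apply w)
        | (some x :: w) => rfl }
  map_one' := by
    ext1 w
    match w with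
    | [] => rfl
    | (none :: w) => rfl
    | (some x :: w) => rfl
  map_mul' g h := by
    ext1 w
    match w with
    | [] => rfl
    | (none :: w) => rfl
    | (some x :: w) => rfl

theorem hat_nil (h : Equiv.Perm (List Xt)) : hat h [] = [] := rfl
theorem hat_none (h : Equiv.Perm (List Xt)) (w : List Xt) : hat h (none :: w) = none :: h w := rfl
theorem hat_some (h : Equiv.Perm (List Xt)) (x : Pt × Zt) (w : List Xt) :
    hat h (some x :: w) = some x :: w := rfl

/-- The three underlying elements of the hatted generators. -/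
def gen3 : Fin 3 → EE := ![EE.tr 1 1, EE.lamp Fa, EE.lamp (Fb .start)]

/-- The six generators of the first kind. -/
def gen6 : Fin 6 → EE :=
  ![EE.tr 1 0, EE.tr 0 1, EE.lamp Fa, EE.lamp (Fb .start), EE.lamp (Fb .run), EE.lamp (Fb .fail)]

/-- The nine generators. -/
def gens : Fin 3 ⊕ Fin 6 → Equiv.Perm (List Xt) :=
  Sum.elim (fun c => hat (Act (gen3 c))) (fun c => Act (gen6 c))

/-- The group. -/
def GG : Subgroup (Equiv.Perm (List Xt)) := Subgroup.closure (Set.range gens)

/-! ### The notions of the problem -/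

/-- Automorphisms of the rooted tree of words: length and prefixes are preserved. -/
def IsTreeAut {X : Type} (g : Equiv.Perm (List X)) : Prop :=
  (∀ w, (g w).length = w.length) ∧ ∀ v w, g v <+: g (v ++ w)

/-- `h` is the section of `g` at the word `v`. -/
def IsSection {X : Type} (g : Equiv.Perm (List X)) (v : List X) (h : Equiv.Perm (List X)) : Prop :=
  ∀ w, g (v ++ w) = g v ++ h w

/-- `G` is a self-similar group: it is generated by finitely many tree automorphisms `g i` given
recursively by `g i (x :: w) = y :: h w` with `h` a group word in the generators. -/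
def IsSelfSimilar {X : Type} (G : Subgroup (Equiv.Perm (List X))) : Prop :=
  ∃ (m : ℕ) (g : Fin m → Equiv.Perm (List X)), (∀ i, IsTreeAut (g i)) ∧
    Subgroup.closure (Set.range g) = G ∧
    ∀ i x, ∃ y, ∃ h ∈ G, ∀ w, g i (x :: w) = y :: h w

/-- `G` is contracting. -/
def IsContracting {X : Type} (G : Subgroup (Equiv.Perm (List X))) : Prop :=
  ∃ N : Set (Equiv.Perm (List X)), N.Finite ∧ N ⊆ G ∧
    ∀ g ∈ G, ∃ k : ℕ, ∀ v : List X, k ≤ v.length → ∃ h ∈ N, IsSection g v h

/-- The relators of the finite L-presentation with data `Q`, `Φ`, `R`. -/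
def LRel {n : ℕ} (Q : Finset (FreeGroup (Fin n))) (Φ : Finset (Monoid.End (FreeGroup (Fin n))))
    (R : Finset (FreeGroup (Fin n))) : Set (FreeGroup (Fin n)) :=
  {x | x ∈ Q ∨ ∃ φ ∈ Submonoid.closure (Φ : Set (Monoid.End (FreeGroup (Fin n)))), ∃ r ∈ R, x = φ r}

/-- `G` admits a finite L-presentation. -/
def HasFiniteLPresentation (G : Type) [Group G] : Prop :=
  ∃ (n : ℕ) (Q : Finset (FreeGroup (Fin n))) (Φ : Finset (Monoid.End (FreeGroup (Fin n))))
    (R : Finset (FreeGroup (Fin n))),
    Nonempty (G ≃* FreeGroup (Fin n) ⧸ Subgroup.normalClosure (LRel Q Φ R))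

end Pool.Agent.MP_374aea_al
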