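import Pool.Agent.Work.MP_374aea_al.Defs

set_option autoImplicit false

namespace Pool.Agent.MP_374aea_al

/-! ### Sizes of exponents -/

/-- All exponents of `p` are bounded by `r`. -/
def SB (r : ℕ) (p : AddMonoidAlgebra (ZMod 2) ℤ) : Prop := ∀ j, p.coeff j ≠ 0 → |j| ≤ r

theorem SB_zero (r : ℕ) : SB r 0 := by
  intro j hj
  exact absurd rfl hj

theorem SB_mono {r r' : ℕ} (h : r ≤ r') {p : AddMonoidAlgebra (ZMod 2) ℤ} (hp : SB r p) :
    SB r' p := by
  intro j hj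
  have := hp j hj
  omega

theorem SB_add {r : ℕ} {p q : AddMonoidAlgebra (ZMod 2) ℤ} (hp : SB r p) (hq : SB r q) :
    SB r (p + q) := by
  intro j hj
  by_cases h : p.coeff j = 0
  · apply hq
    intro h'
    apply hj
    rw [AddMonoidAlgebra.coeff_add, Finsupp.add_apply, h, h', add_zero]
  · exact hp j h

theorem SB_neg {r : ℕ} {p : AddMonoidAlgebra (ZMod 2) ℤ} (hp : SB r p) : SB r (-p) := by
  intro j hj
  apply hp
  intro h
  apply hj
  rw [AddMonoidAlgebra.coeff_neg, Finsupp.neg_apply, h, neg_zero]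

theorem SB_T {r : ℕ} {g : ℤ} (h : |g| ≤ r) : SB r (T g) := by
  intro j hj
  unfold T at hj
  rw [AddMonoidAlgebra.coeff_single] at hj
  by_cases hg : g = j
  · rw [← hg]; exact h
  · exact absurd (Finsupp.single_eq_of_ne (Ne.symm hg)) hj

theorem SB_mul {r r' : ℕ} {p q : AddMonoidAlgebra (ZMod 2) ℤ} (hp : SB r p) (hq : SB r' q) :
    SB (r + r') (p * q) := by
  classical
  intro j hj
  have h1 : j ∈ (p * q).coeff.support := Finsupp.mem_support_iff.mpr hj
  have h2 := AddMonoidAlgebra.support_coeff_mul_subset p q h1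
  rw [Finset.mem_add] at h2
  obtain ⟨a, ha, b, hb, hab⟩ := h2
  have h3 := hp a (Finsupp.mem_support_iff.mp ha)
  have h4 := hq b (Finsupp.mem_support_iff.mp hb)
  rw [← hab]
  calc |a + b| ≤ |a| + |b| := abs_add_le a b
    _ ≤ _ := by push_cast; omega

theorem exists_SB (p : AddMonoidAlgebra (ZMod 2) ℤ) : ∃ r : ℕ, SB r p := by
  refine ⟨∑ j ∈ p.coeff.support, j.natAbs, ?_⟩
  intro j hj
  have h1 : j ∈ p.coeff.support := Finsupp.mem_support_iff.mpr hj
  have h2 : j.natAbs ≤ ∑ j ∈ p.coeff.support, j.natAbs :=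
    Finset.single_le_sum (f := fun j : ℤ => j.natAbs) (fun i _ => Nat.zero_le _) h1
  rw [Int.abs_eq_natAbs]
  exact_mod_cast h2

/-- All exponents in `x` are bounded by `r`. -/
def Bd (r : ℕ) (x : UT ℤ) : Prop := |x.s| ≤ r ∧ SB r x.A ∧ SB r x.B ∧ SB r x.C

theorem Bd_one : Bd 0 1 := by
  refine ⟨?_, SB_zero _, SB_zero _, SB_zero _⟩
  rw [UT.one_s]; simp

theorem Bd_mono {r r' : ℕ} (h : r ≤ r') {x : UT ℤ} (hx : Bd r x) : Bd r' x := by
  obtain ⟨h1, h2, h3, h4⟩ := hx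
  refine ⟨by omega, SB_mono h h2, SB_mono h h3, SB_mono h h4⟩

theorem Bd_mul {r r' : ℕ} {x y : UT ℤ} (hx : Bd r x) (hy : Bd r' y) : Bd (r + r') (x * y) := by
  obtain ⟨h1, h2, h3, h4⟩ := hx
  obtain ⟨k1, k2, k3, k4⟩ := hy
  refine ⟨?_, ?_, ?_, ?_⟩
  · rw [UT.mul_s]
    calc |x.s + y.s| ≤ |x.s| + |y.s| := abs_add_le _ _
      _ ≤ _ := by push_cast; omega
  · rw [UT.mul_A]
    exact SB_add (SB_mono (by omega) k2) (SB_mul h2 (SB_T k1))
  · rw [UT.mul_B]
    exact SB_add (SB_mono (by omega) h3) (SB_mul (SB_T h1) k3)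
  · rw [UT.mul_C]
    exact SB_add (SB_add (SB_mono (by omega) h4) (SB_mono (by omega) k4)) (SB_mul h2 k3)

theorem exists_Bd (x : UT ℤ) : ∃ r : ℕ, Bd r x := by
  obtain ⟨a, ha⟩ := exists_SB x.A
  obtain ⟨b, hb⟩ := exists_SB x.B
  obtain ⟨c, hc⟩ := exists_SB x.C
  refine ⟨x.s.natAbs + a + b + c, ?_, SB_mono (by omega) ha, SB_mono (by omega) hb,
    SB_mono (by omega) hc⟩
  rw [Int.abs_eq_natAbs]
  exact_mod_cast (by omega : x.s.natAbs ≤ x.s.natAbs + a + b + c)

/-- A general principle on lengths of images of words. -/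
theorem hom_len {s : ℕ} {G : Type} [Group G] (f : FreeGroup (Fin s) →* G) (P : ℕ → G → Prop)
    (h1 : P 0 1) (hm : ∀ a b x y, P a x → P b y → P (a + b) (x * y)) (d : ℕ)
    (hg : ∀ c, P d (f (FreeGroup.of c)) ∧ P d (f (FreeGroup.of c))⁻¹) (x : FreeGroup (Fin s)) :
    P (d * x.norm) (f x) := by
  have key : ∀ L : List (Fin s × Bool), P (d * L.length) (f (FreeGroup.mk L)) := by
    intro L
    induction L with
    | nil =>
      rw [← FreeGroup.one_eq_mk, map_one, List.length_nil, mul_zero]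
      exact h1
    | cons a L ih =>
      have h2 : FreeGroup.mk (a :: L) = FreeGroup.mk [a] * FreeGroup.mk L := by
        rw [FreeGroup.mul_mk]; rfl
      rw [h2, map_mul, List.length_cons, show d * (L.length + 1) = d + d * L.length by ring]
      apply hm _ _ _ _ _ ih
      obtain ⟨c, b⟩ := a
      cases b with
      | true => exact (hg c).1
      | false =>
        have h3 : FreeGroup.mk [(c, false)] = (FreeGroup.of c)⁻¹ := by
          rw [FreeGroup.of, FreeGroup.inv_mk]; rfl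
        rw [h3, map_inv]
        exact (hg c).2
  have := key x.toWord
  rw [FreeGroup.mk_toWord] at this
  exact this

theorem exists_bound_fin {s : ℕ} (P : Fin s → ℕ → Prop) (hP : ∀ c, ∃ r, P c r)
    (hm : ∀ c r r', r ≤ r' → P c r → P c r') : ∃ d, ∀ c, P c d := by
  choose r hr using hP
  refine ⟨∑ c, r c, fun c => hm c _ _ ?_ (hr c)⟩
  exact Finset.single_le_sum (f := r) (fun i _ => Nat.zero_le _) (Finset.mem_univ c)

theorem exists_bound_hom {s : ℕ} (ρ : FreeGroup (Fin s) →* UT ℤ) :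
    ∃ d : ℕ, ∀ x, Bd (d * x.norm) (ρ x) := by
  obtain ⟨d, hd⟩ := exists_bound_fin
    (fun c r => Bd r (ρ (FreeGroup.of c)) ∧ Bd r (ρ (FreeGroup.of c))⁻¹)
    (by
      intro c
      obtain ⟨a, ha⟩ := exists_Bd (ρ (FreeGroup.of c))
      obtain ⟨b, hb⟩ := exists_Bd (ρ (FreeGroup.of c))⁻¹
      exact ⟨a + b, Bd_mono (by omega) ha, Bd_mono (by omega) hb⟩)
    (by
      intro c r r' h hr
      exact ⟨Bd_mono h hr.1, Bd_mono h hr.2⟩)
  exact ⟨d, fun x => hom_len ρ (fun r x => Bd r x) Bd_one (fun a b x y => Bd_mul) d hd x⟩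

theorem exists_bound_end {s : ℕ} (φ : Monoid.End (FreeGroup (Fin s))) :
    ∃ d : ℕ, ∀ x, (φ x).norm ≤ d * x.norm := by
  obtain ⟨d, hd⟩ := exists_bound_fin
    (fun c r => (φ (FreeGroup.of c)).norm ≤ r)
    (by intro c; exact ⟨_, le_refl _⟩)
    (by intro c r r' h hr; exact le_trans hr h)
  refine ⟨d, fun x => ?_⟩
  refine hom_len (s := s) (G := FreeGroup (Fin s)) φ (fun r x => x.norm ≤ r) ?_ ?_ d ?_ x
  · rw [FreeGroup.norm_one]
  · intro a b x y hx hy
    exact le_trans (FreeGroup.norm_mul_le x y) (by omega)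
  · intro c
    refine ⟨hd c, ?_⟩
    rw [FreeGroup.norm_inv_eq]
    exact hd c

theorem exists_bound_ends {s : ℕ} (Φ : Finset (Monoid.End (FreeGroup (Fin s)))) :
    ∃ d : ℕ, 0 < d ∧ ∀ φ ∈ Φ, ∀ x, (φ x).norm ≤ d * x.norm := by
  classical
  choose d hd using fun φ : Monoid.End (FreeGroup (Fin s)) => exists_bound_end φ
  refine ⟨1 + ∑ φ ∈ Φ, d φ, by omega, ?_⟩
  intro φ hφ x
  refine le_trans (hd φ x) (Nat.mul_le_mul_right _ ?_)
  have := Finset.single_le_sum (f := d) (fun i _ => Nat.zero_le _) hφ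
  omega

theorem norm_prod_le {s : ℕ} (Φ : Finset (Monoid.End (FreeGroup (Fin s)))) (d : ℕ)
    (hd : ∀ φ ∈ Φ, ∀ x, (φ x).norm ≤ d * x.norm) (L : List (Monoid.End (FreeGroup (Fin s))))
    (hL : ∀ φ ∈ L, φ ∈ Φ) (x : FreeGroup (Fin s)) :
    (L.prod x).norm ≤ d ^ L.length * x.norm := by
  induction L with
  | nil => simp
  | cons φ L ih =>
    rw [List.prod_cons, List.length_cons, pow_succ]
    change (φ (L.prod x)).norm ≤ _
    calc (φ (L.prod x)).norm ≤ d * (L.prod x).norm := hd φ (hL φ (by simp)) _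
      _ ≤ d * (d ^ L.length * x.norm) :=
        Nat.mul_le_mul_left _ (ih (fun ψ hψ => hL ψ (by simp [hψ])))
      _ = _ := by ring

end Pool.Agent.MP_374aea_al
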